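import Pool.Agent.Helper806.RD.Comp

/-!
Closure properties of computable predicates.
-/

set_option autoImplicit false

namespace Pool.Agent.Helper806.RE

section

variable {α β γ : Type*} [Primcodable α] [Primcodable β] [Primcodable γ]

theorem cp_not {p : α → Prop} (hp : ComputablePred p) : ComputablePred fun a => ¬ p a := hp.not

theorem cp_and {p q : α → Prop} (hp : ComputablePred p) (hq : ComputablePred q) :
    ComputablePred fun a => p a ∧ q a := by
  refine cp_of_re (and hp.to_re hq.to_re) ?_
  refine (or hp.not.to_re hq.not.to_re).of_eq fun a => ?_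
  tauto

theorem cp_or {p q : α → Prop} (hp : ComputablePred p) (hq : ComputablePred q) :
    ComputablePred fun a => p a ∨ q a := by
  refine cp_of_re (or hp.to_re hq.to_re) ?_
  refine (and hp.not.to_re hq.not.to_re).of_eq fun a => ?_
  tauto

theorem cp_imp {p q : α → Prop} (hp : ComputablePred p) (hq : ComputablePred q) :
    ComputablePred fun a => p a → q a := by
  refine (cp_or (cp_not hp) hq).of_eq fun a => ?_
  tauto

theorem cp_iff {p q : α → Prop} (hp : ComputablePred p) (hq : ComputablePred q) :
    ComputablePred fun a => (p a ↔ q a) := by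
  refine (cp_and (cp_imp hp hq) (cp_imp hq hp)).of_eq fun a => ?_
  tauto

theorem cp_const (P : Prop) : ComputablePred fun _ : α => P := by
  by_cases h : P
  · exact cp_of_re (const P) ((const (¬ P)))
  · exact cp_of_re (const P) ((const (¬ P)))

theorem cp_all_lt {p : α → ℕ → Prop} (hp : ComputablePred fun x : α × ℕ => p x.1 x.2)
    {f : α → ℕ} (hf : Computable f) : ComputablePred fun a => ∀ i < f a, p a i := by
  refine cp_of_re (all_lt hp.to_re hf) ?_
  have h : REPred fun a => ∃ i, i < f a ∧ ¬ p a i := by
    refine exN (p := fun a i => i < f a ∧ ¬ p a i) (and (lt (by fun_prop) (by fun_prop)) ?_)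
    exact hp.not.to_re
  refine h.of_eq fun a => ?_
  push Not
  rfl

theorem cp_ex_lt {p : α → ℕ → Prop} (hp : ComputablePred fun x : α × ℕ => p x.1 x.2)
    {f : α → ℕ} (hf : Computable f) : ComputablePred fun a => ∃ i, i < f a ∧ p a i := by
  have h := cp_not (cp_all_lt (p := fun a i => ¬ p a i) (cp_not hp) hf)
  refine h.of_eq fun a => ?_
  push Not
  rfl

theorem cp_all_mem {p : α → β → Prop} (hp : ComputablePred fun x : α × β => p x.1 x.2)
    {l : α → List β} (hl : Computable l) : ComputablePred fun a => ∀ b ∈ l a, p a b := by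
  refine cp_of_re (all_mem hp.to_re hl) ?_
  refine (ex_mem (p := fun a b => ¬ p a b) hp.not.to_re hl).of_eq fun a => ?_
  push Not
  rfl

theorem cp_ex_mem {p : α → β → Prop} (hp : ComputablePred fun x : α × β => p x.1 x.2)
    {l : α → List β} (hl : Computable l) : ComputablePred fun a => ∃ b ∈ l a, p a b := by
  have h := cp_not (cp_all_mem (p := fun a b => ¬ p a b) (cp_not hp) hl)
  refine h.of_eq fun a => ?_
  push Not
  rfl

/-- a total function with a computable selector: bounded or unbounded search -/
theorem exists_selector {r : α → β → Prop} (hr : REPred fun x : α × β => r x.1 x.2)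
    (h : ∀ a, ∃ b, r a b) : ∃ f : α → β, Computable f ∧ ∀ a, r a (f a) := by
  obtain ⟨g, hg, h1, h2⟩ := uniformize hr
  have hd : ∀ a, (g a).Dom := fun a => (h1 a).2 (h a)
  refine ⟨fun a => (g a).get (hd a), hg.of_eq_tot fun a => Part.get_mem _, fun a => ?_⟩
  exact h2 a _ (Part.get_mem _)

end

end Pool.Agent.Helper806.RE
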