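import Pool.Agent.Helper806.RD.CP

/-!
Course-of-values recursion with a recursively enumerable selector.
-/

set_option autoImplicit false

namespace Pool.Agent.Helper806.RE

/-- course-of-values recursion: if `r n l c` is r.e. and always solvable in `c`, there is a
computable `f` with `r n [f 0, ..., f (n-1)] (f n)` for all `n` -/
theorem strong_rec_sel {β : Type} [Primcodable β] {r : ℕ → List β → β → Prop}
    (hr : REPred fun p : ℕ × List β × β => r p.1 p.2.1 p.2.2) (h : ∀ n l, ∃ c, r n l c) :
    ∃ f : ℕ → β, Computable f ∧ ∀ n, r n ((List.range n).map f) (f n) := by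
  have hr' : REPred fun x : (ℕ × List β) × β => r x.1.1 x.1.2 x.2 :=
    comp hr (f := fun x : (ℕ × List β) × β => (x.1.1, x.1.2, x.2)) (by fun_prop)
  obtain ⟨g, hg, hgr⟩ := exists_selector (r := fun (a : ℕ × List β) c => r a.1 a.2 c) hr'
    (fun a => h a.1 a.2)
  let hist : ℕ → List β := fun n => Nat.rec [] (fun m l => l ++ [g (m, l)]) n
  have hh : Computable hist := by
    have := Computable.nat_rec (f := fun n : ℕ => n) (g := fun _ : ℕ => ([] : List β))
      (h := fun (_ : ℕ) (y : ℕ × List β) => y.2 ++ [g (y.1, y.2)]) Computable.id
      (Computable.const []) (by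
        unfold Computable₂
        have h1 : Computable fun x : ℕ × ℕ × List β => g (x.2.1, x.2.2) :=
          hg.comp (by fun_prop)
        have h2 : Computable fun x : ℕ × ℕ × List β => [g (x.2.1, x.2.2)] :=
          Computable.list_cons.comp h1 (Computable.const [])
        exact Computable.list_append.comp (by fun_prop) h2)
    exact this
  have hist_succ : ∀ n, hist (n + 1) = hist n ++ [g (n, hist n)] := fun n => rfl
  refine ⟨fun n => g (n, hist n), hg.comp (Computable.id.pair hh), fun n => ?_⟩
  have key : ∀ n, hist n = (List.range n).map fun n => g (n, hist n) := by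
    intro n
    induction n with
    | zero => rfl
    | succ n ih => rw [hist_succ, List.range_succ, List.map_append, ← ih]; rfl
  have := hgr (n, hist n)
  simp only at this
  rw [← key n]
  exact this

end Pool.Agent.Helper806.RE
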