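import Pool.Agent.Helper806.RD.ConfIS

set_option autoImplicit false


namespace Pool.Agent.Helper806.RD



/-- least element of a finite chain -/
theorem chain_least (r : ℕ → ℕ → Prop) (trans : ∀ x y z, r x y → r y z → r x z) (s : Finset ℕ) :
    s.Nonempty → (∀ x ∈ s, ∀ y ∈ s, x ≠ y → r x y ∨ r y x) → ∃ m ∈ s, ∀ x ∈ s, x = m ∨ r m x := by
  classical
  induction s using Finset.induction_on with
  | empty => intro h; simp at h
  | insert a s ha ih =>
    intro _ hc
    by_cases hs : s.Nonempty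
    · obtain ⟨m, hm, hmin⟩ := ih hs (fun x hx y hy => hc x (Finset.mem_insert_of_mem hx) y
        (Finset.mem_insert_of_mem hy))
      have hne : a ≠ m := fun e => ha (e ▸ hm)
      rcases hc a (Finset.mem_insert_self _ _) m (Finset.mem_insert_of_mem hm) hne with h | h
      · refine ⟨a, Finset.mem_insert_self _ _, ?_⟩
        intro x hx
        rcases Finset.mem_insert.1 hx with e | hx
        · exact Or.inl e
        · rcases hmin x hx with e | h2
          · right; rw [e]; exact h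
          · right; exact trans _ _ _ h h2
      · refine ⟨m, Finset.mem_insert_of_mem hm, ?_⟩
        intro x hx
        rcases Finset.mem_insert.1 hx with e | hx
        · right; rw [e]; exact h
        · exact hmin x hx
    · rw [Finset.not_nonempty_iff_eq_empty] at hs
      subst hs
      refine ⟨a, Finset.mem_insert_self _ _, ?_⟩
      intro x hx
      rcases Finset.mem_insert.1 hx with e | hx
      · exact Or.inl e
      · simp at hx

/-- the counting argument -/
theorem count_claim {q : ℕ} {lt : ℕ → ℕ → Prop} {X S : ℕ → Prop} {A : ℕ → Finset ℕ}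
    {T U : ℕ → Prop} (h : Conf q lt X S A T U) {Z : Finset ℕ} (hZ : ∀ z ∈ Z, U z)
    (hanti : ∀ z ∈ Z, ∀ z' ∈ Z, ¬ lt z z') (hcard : Z.card = q + 1) {u v : ℕ}
    (hTu : T u) (hTv : T v) (huv : lt u v)
    (hu : ∀ z ∈ Z, ¬ lt z u)
    (hv : ∀ z ∈ Z, ¬ ab lt A u z → lo lt A v z) : False := by
  classical
  have I := conf_is h
  have trans := h.trans
  have irrefl := h.irrefl
  obtain ⟨hXu, hSu⟩ := h.TX u hTu
  obtain ⟨hXv, hSv⟩ := h.TX v hTv
  have hZX : ∀ z ∈ Z, X z := fun z hz => (h.UX z (hZ z hz)).1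
  have hZS : ∀ z ∈ Z, ¬ S z := fun z hz => (h.UX z (hZ z hz)).2.1
  have hZT : ∀ z ∈ Z, ¬ T z := fun z hz => (h.UX z (hZ z hz)).2.2
  set Z1 := Z.filter (fun z => ab lt A u z) with hZ1
  set Z2 := Z.filter (fun z => ¬ ab lt A u z) with hZ2
  have hZc : Z1.card + Z2.card = q + 1 := by
    rw [hZ1, hZ2, Finset.card_filter_add_card_filter_not, hcard]
  -- facts for Z1
  have f1 : ∀ z ∈ Z1, z ∈ Z ∧ ¬ lt u z ∧ ¬ lt z u ∧ (∃ b ∈ A u, lt z b) ∧
      (lt z v ∨ ∃ b ∈ A v, lt z b) := by
    intro z hz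
    obtain ⟨hzZ, hab⟩ := Finset.mem_filter.1 hz
    have hab2 := I.hi_mono u v z hTu hTv (hZ z hzZ) huv hab
    have hne : z ≠ u := fun e => hZT z hzZ (e ▸ hTu)
    have hne2 : z ≠ v := fun e => hZT z hzZ (e ▸ hTv)
    rcases hab with hab | ⟨h1, h2, h3⟩
    · exact absurd hab (hu z hzZ)
    · refine ⟨hzZ, h1, h2, (level_iff h.toBase (hZX z hzZ) (hZS z hzZ) hXu hSu hne h2 h1).2 h3, ?_⟩
      rcases hab2 with hab2 | ⟨h4, h5, h6⟩
      · exact Or.inl hab2
      · exact Or.inr ((level_iff h.toBase (hZX z hzZ) (hZS z hzZ) hXv hSv hne2 h5 h4).2 h6)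
  -- facts for Z2
  have f2 : ∀ z ∈ Z2, z ∈ Z ∧ ¬ lt v z ∧ ¬ lt z v ∧ (∃ a ∈ A v, lt a z) := by
    intro z hz
    obtain ⟨hzZ, hab⟩ := Finset.mem_filter.1 hz
    obtain ⟨h1, h2, h3⟩ := hv z hzZ hab
    have hne2 : v ≠ z := fun e => hZT z hzZ (e ▸ hTv)
    exact ⟨hzZ, h1, h2, (level_iff h.toBase hXv hSv (hZX z hzZ) (hZS z hzZ) hne2 h1 h2).1 h3⟩
  obtain ⟨M, hMsub, hMcard, hMmin, hMu, hMv⟩ := min_set trans irrefl h.wS
    (h.A_S u hXu hSu) (h.A_S v hXv hSv) (h.A_card u hXu hSu) (h.A_card v hXv hSv)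
    (h.A_anti u hXu hSu) (h.A_anti v hXv hSv)
  have hMS : ∀ m ∈ M, S m := by
    intro m hm
    rcases Finset.mem_union.1 (hMsub hm) with h1 | h1
    · exact h.A_S u hXu hSu m h1
    · exact h.A_S v hXv hSv m h1
  have hMM : ∀ m ∈ M, ∀ m' ∈ M, ¬ lt m m' := fun m hm m' hm' => hMmin m' hm' m (hMsub hm)
  have huM : ∀ m ∈ M, ¬ lt u m ∧ ¬ lt m u := by
    intro m hm
    constructor
    · intro h1
      obtain ⟨a, ha, h2⟩ := hMu m hm
      have h3 : lt u a := by
        rcases h2 with e | h2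
        · rw [← e]; exact h1
        · exact trans _ _ _ h1 h2
      exact (h.A_inc u hXu hSu a ha).2 h3
    · intro h1
      rcases Finset.mem_union.1 (hMsub hm) with h2 | h2
      · exact (h.A_inc u hXu hSu m h2).1 h1
      · exact (h.A_inc v hXv hSv m h2).1 (trans _ _ _ h1 huv)
  have hMZ1 : ∀ z ∈ Z1, ∀ m ∈ M, ¬ lt m z := by
    intro z hz m hm h1
    obtain ⟨_, _, _, ⟨b, hb, hb2⟩, h5⟩ := f1 z hz
    rcases Finset.mem_union.1 (hMsub hm) with h2 | h2
    · exact h.A_anti u hXu hSu m h2 b hb (trans _ _ _ h1 hb2)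
    · rcases h5 with h5 | ⟨b', hb', h6⟩
      · exact (h.A_inc v hXv hSv m h2).1 (trans _ _ _ h1 h5)
      · exact h.A_anti v hXv hSv m h2 b' hb' (trans _ _ _ h1 h6)
  set M1 := M.filter (fun m => ∃ z ∈ Z1, lt z m) with hM1
  set M0 := M.filter (fun m => ¬ ∃ z ∈ Z1, lt z m) with hM0
  have hMc : M1.card + M0.card = q := by
    rw [hM1, hM0, Finset.card_filter_add_card_filter_not, hMcard]
  -- first antichain
  have c1 : Z1.card + M0.card + 1 ≤ q + 1 := by
    have hd1 : Disjoint Z1 M0 := by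
      rw [Finset.disjoint_left]
      intro x hx hx2
      exact hZS x (f1 x hx).1 (hMS x (Finset.mem_filter.1 hx2).1)
    have hu1 : u ∉ Z1 ∪ M0 := by
      intro hx
      rcases Finset.mem_union.1 hx with hx | hx
      · exact hZT u (f1 u hx).1 hTu
      · exact hSu (hMS u (Finset.mem_filter.1 hx).1)
    have h1 := h.wX (insert u (Z1 ∪ M0)) (by
      intro x hx
      rcases Finset.mem_insert.1 hx with e | hx
      · rw [e]; exact hXu
      · rcases Finset.mem_union.1 hx with hx | hx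
        · exact hZX x (f1 x hx).1
        · exact h.SX x (hMS x (Finset.mem_filter.1 hx).1)) (by
      intro x hx y hy hxy
      rcases Finset.mem_insert.1 hx with e | hx
      · rcases Finset.mem_insert.1 hy with e' | hy
        · rw [e, e'] at hxy; exact irrefl _ hxy
        · rw [e] at hxy
          rcases Finset.mem_union.1 hy with hy | hy
          · exact (f1 y hy).2.1 hxy
          · exact (huM y (Finset.mem_filter.1 hy).1).1 hxy
      · rcases Finset.mem_insert.1 hy with e' | hy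
        · rw [e'] at hxy
          rcases Finset.mem_union.1 hx with hx | hx
          · exact (f1 x hx).2.2.1 hxy
          · exact (huM x (Finset.mem_filter.1 hx).1).2 hxy
        · rcases Finset.mem_union.1 hx with hx | hx
          · rcases Finset.mem_union.1 hy with hy | hy
            · exact hanti x (f1 x hx).1 y (f1 y hy).1 hxy
            · exact (Finset.mem_filter.1 hy).2 ⟨x, hx, hxy⟩
          · rcases Finset.mem_union.1 hy with hy | hy
            · exact hMZ1 y hy x (Finset.mem_filter.1 hx).1 hxy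
            · exact hMM x (Finset.mem_filter.1 hx).1 y (Finset.mem_filter.1 hy).1 hxy)
    rw [Finset.card_insert_of_notMem hu1, Finset.card_union_of_disjoint hd1] at h1
    exact h1
  set A2 := (A v).filter (fun a => ∃ z ∈ Z2, lt a z) with hA2
  set A0 := (A v).filter (fun a => ¬ ∃ z ∈ Z2, lt a z) with hA0
  have hAc : A2.card + A0.card = q := by
    rw [hA2, hA0, Finset.card_filter_add_card_filter_not, h.A_card v hXv hSv]
  have c2 : Z2.card + A0.card + 1 ≤ q + 1 := by
    have hd1 : Disjoint Z2 A0 := by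
      rw [Finset.disjoint_left]
      intro x hx hx2
      exact hZS x (f2 x hx).1 (h.A_S v hXv hSv x (Finset.mem_filter.1 hx2).1)
    have hu1 : v ∉ Z2 ∪ A0 := by
      intro hx
      rcases Finset.mem_union.1 hx with hx | hx
      · exact hZT v (f2 v hx).1 hTv
      · exact hSv (h.A_S v hXv hSv v (Finset.mem_filter.1 hx).1)
    have h1 := h.wX (insert v (Z2 ∪ A0)) (by
      intro x hx
      rcases Finset.mem_insert.1 hx with e | hx
      · rw [e]; exact hXv
      · rcases Finset.mem_union.1 hx with hx | hx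
        · exact hZX x (f2 x hx).1
        · exact h.SX x (h.A_S v hXv hSv x (Finset.mem_filter.1 hx).1)) (by
      intro x hx y hy hxy
      rcases Finset.mem_insert.1 hx with e | hx
      · rcases Finset.mem_insert.1 hy with e' | hy
        · rw [e, e'] at hxy; exact irrefl _ hxy
        · rw [e] at hxy
          rcases Finset.mem_union.1 hy with hy | hy
          · exact (f2 y hy).2.1 hxy
          · exact (h.A_inc v hXv hSv y (Finset.mem_filter.1 hy).1).2 hxy
      · rcases Finset.mem_insert.1 hy with e' | hy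
        · rw [e'] at hxy
          rcases Finset.mem_union.1 hx with hx | hx
          · exact (f2 x hx).2.2.1 hxy
          · exact (h.A_inc v hXv hSv x (Finset.mem_filter.1 hx).1).1 hxy
        · rcases Finset.mem_union.1 hx with hx | hx
          · rcases Finset.mem_union.1 hy with hy | hy
            · exact hanti x (f2 x hx).1 y (f2 y hy).1 hxy
            · obtain ⟨a', ha', h7⟩ := (f2 x hx).2.2.2
              exact h.A_anti v hXv hSv a' ha' y (Finset.mem_filter.1 hy).1 (trans _ _ _ h7 hxy)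
          · rcases Finset.mem_union.1 hy with hy | hy
            · exact (Finset.mem_filter.1 hx).2 ⟨y, hy, hxy⟩
            · exact h.A_anti v hXv hSv x (Finset.mem_filter.1 hx).1 y (Finset.mem_filter.1 hy).1 hxy)
    rw [Finset.card_insert_of_notMem hu1, Finset.card_union_of_disjoint hd1] at h1
    exact h1
  have c3 : M1.card + A2.card ≤ q := by
    have key : ∀ m ∈ M1, ∀ a ∈ A2, m ≠ a ∧ ¬ lt m a := by
      intro m hm a ha
      obtain ⟨hmM, z1, hz1, h1⟩ := Finset.mem_filter.1 hm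
      obtain ⟨haA, z2, hz2, h2⟩ := Finset.mem_filter.1 ha
      constructor
      · intro e
        rw [e] at h1
        exact hanti z1 (f1 z1 hz1).1 z2 (f2 z2 hz2).1 (trans _ _ _ h1 h2)
      · intro h3
        exact hanti z1 (f1 z1 hz1).1 z2 (f2 z2 hz2).1 (trans _ _ _ (trans _ _ _ h1 h3) h2)
    have hd1 : Disjoint M1 A2 := by
      rw [Finset.disjoint_left]
      intro x hx hx2
      exact (key x hx x hx2).1 rfl
    have h1 := h.wS (M1 ∪ A2) (by
      intro x hx
      rcases Finset.mem_union.1 hx with hx | hx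
      · exact hMS x (Finset.mem_filter.1 hx).1
      · exact h.A_S v hXv hSv x (Finset.mem_filter.1 hx).1) (by
      intro x hx y hy hxy
      rcases Finset.mem_union.1 hx with hx | hx
      · rcases Finset.mem_union.1 hy with hy | hy
        · exact hMM x (Finset.mem_filter.1 hx).1 y (Finset.mem_filter.1 hy).1 hxy
        · exact (key x hx y hy).2 hxy
      · rcases Finset.mem_union.1 hy with hy | hy
        · exact hMmin y (Finset.mem_filter.1 hy).1 x
            (Finset.mem_union_right _ (Finset.mem_filter.1 hx).1) hxy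
        · exact h.A_anti v hXv hSv x (Finset.mem_filter.1 hx).1 y (Finset.mem_filter.1 hy).1 hxy)
    rw [Finset.card_union_of_disjoint hd1] at h1
    exact h1
  omega

theorem exists_bad {q : ℕ} {lt : ℕ → ℕ → Prop} {X S : ℕ → Prop} {A : ℕ → Finset ℕ}
    {T U : ℕ → Prop} (h : Conf q lt X S A T U) {Z : Finset ℕ} (hZ : ∀ z ∈ Z, U z)
    (hanti : ∀ z ∈ Z, ∀ z' ∈ Z, ¬ lt z z') (hcard : Z.card = q + 1) {N : ℕ}
    (hN : ∀ z ∈ Z, z ≤ N) :
    ∃ z ∈ Z, ∃ z' ∈ Z, Bad lt T lt (lo lt A) (ab lt A) N z z' := by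
  classical
  have I := conf_is h
  have trans := h.trans
  have irrefl := h.irrefl
  have hZX : ∀ z ∈ Z, X z := fun z hz => (h.UX z (hZ z hz)).1
  have hZT : ∀ z ∈ Z, ¬ T z := fun z hz => (h.UX z (hZ z hz)).2.2
  -- (1)
  have s1 : ∀ t, T t → (∃ z ∈ Z, lt t z) ∨ (∃ z ∈ Z, lt z t) := by
    intro t ht
    by_contra hcon
    push Not at hcon
    have htZ : t ∉ Z := fun hm => hZT t hm ht
    have h1 := h.wX (insert t Z) (by
      intro x hx
      rcases Finset.mem_insert.1 hx with e | hx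
      · rw [e]; exact (h.TX t ht).1
      · exact hZX x hx) (by
      intro x hx y hy hxy
      rcases Finset.mem_insert.1 hx with e | hx
      · rcases Finset.mem_insert.1 hy with e' | hy
        · rw [e, e'] at hxy; exact irrefl _ hxy
        · rw [e] at hxy; exact hcon.1 y hy hxy
      · rcases Finset.mem_insert.1 hy with e' | hy
        · rw [e'] at hxy; exact hcon.2 x hx hxy
        · exact hanti x hx y hy hxy)
    rw [Finset.card_insert_of_notMem htZ, hcard] at h1
    omega
  have excl : ∀ t, (∃ z ∈ Z, lt t z) → ¬ (∃ z ∈ Z, lt z t) := by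
    rintro t ⟨z, hz, h1⟩ ⟨z', hz', h2⟩
    exact hanti z' hz' z hz (trans _ _ _ h2 h1)
  set TN := (Finset.range N).filter T with hTN
  have hTNT : ∀ t ∈ TN, T t := fun t ht => (Finset.mem_filter.1 ht).2
  have hwit : ∀ z ∈ Z, ∃ t ∈ TN, lo lt A t z := by
    intro z hz
    obtain ⟨t, h1, h2, h3⟩ := I.wit z (hZ z hz)
    exact ⟨t, Finset.mem_filter.2 ⟨Finset.mem_range.2 (lt_of_lt_of_le h1 (hN z hz)), h2⟩, h3⟩
  have hZne : Z.Nonempty := by
    rw [← Finset.card_pos, hcard]; omega
  have hTNne : TN.Nonempty := by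
    obtain ⟨z, hz⟩ := hZne
    obtain ⟨t, ht, _⟩ := hwit z hz
    exact ⟨t, ht⟩
  have hchain : ∀ x ∈ TN, ∀ y ∈ TN, x ≠ y → lt x y ∨ lt y x := fun x hx y hy hne =>
    h.T_chain x y (hTNT x hx) (hTNT y hy) hne
  -- (2)
  have s2 : ∃ t ∈ TN, ∃ z ∈ Z, lt t z := by
    obtain ⟨t0, ht0, hmin⟩ := chain_least lt trans TN hTNne hchain
    refine ⟨t0, ht0, ?_⟩
    by_contra hlow
    have hT0 := hTNT t0 ht0
    have hlo : ∀ z ∈ Z, lo lt A t0 z := by
      intro z hz
      rcases I.tri t0 z hT0 (hZ z hz) with h1 | h1 | h1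
      · exact absurd ⟨z, hz, h1⟩ hlow
      · exact h1
      · exfalso
        obtain ⟨tz, htz, h2⟩ := hwit z hz
        have h3 : ab lt A tz z := by
          rcases hmin tz htz with e | h3
          · rw [e]; exact h1
          · exact I.hi_mono t0 tz z hT0 (hTNT tz htz) (hZ z hz) h3 h1
        exact I.ta_hi tz z (hTNT tz htz) (hZ z hz) h2 h3
    rcases s1 t0 hT0 with h1 | ⟨z, hz, h1⟩
    · exact hlow h1
    · exact (hlo z hz).2.1 h1
  -- (3)
  obtain ⟨u, hu, hmax⟩ := chain_least (fun x y => lt y x) (fun x y z h1 h2 => trans _ _ _ h2 h1)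
    (TN.filter (fun t => ∃ z ∈ Z, lt t z)) (by
      obtain ⟨t, ht, h1⟩ := s2
      exact ⟨t, Finset.mem_filter.2 ⟨ht, h1⟩⟩) (fun x hx y hy hne =>
        (hchain x (Finset.mem_filter.1 hx).1 y (Finset.mem_filter.1 hy).1 hne).symm)
  obtain ⟨huN, hulow⟩ := Finset.mem_filter.1 hu
  have hTu := hTNT u huN
  have hhigh : ∀ z' ∈ Z, lt u z' → ∀ tz ∈ TN, lo lt A tz z' → ∃ z ∈ Z, lt z tz := by
    intro z' hz' huz tz htz hlo
    rcases s1 tz (hTNT tz htz) with h1 | h1
    · exfalso
      have h2 : lt tz z' := by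
        rcases hmax tz (Finset.mem_filter.2 ⟨htz, h1⟩) with e | h2
        · rw [e]; exact huz
        · exact trans _ _ _ h2 huz
      exact hlo.1 h2
    · exact h1
  obtain ⟨z', hz', huz'⟩ := hulow
  obtain ⟨tz', htz', hlo'⟩ := hwit z' hz'
  obtain ⟨v, hv, hmin⟩ := chain_least lt trans
    (TN.filter (fun t => ∃ z ∈ Z, lt z t))
      ⟨tz', Finset.mem_filter.2 ⟨htz', hhigh z' hz' huz' tz' htz' hlo'⟩⟩ (fun x hx y hy hne =>
        hchain x (Finset.mem_filter.1 hx).1 y (Finset.mem_filter.1 hy).1 hne)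
  obtain ⟨hvN, hvhigh⟩ := Finset.mem_filter.1 hv
  have hTv := hTNT v hvN
  have hvlow : ¬ ∃ z ∈ Z, lt v z := fun h1 => excl v h1 hvhigh
  have huhigh : ¬ ∃ z ∈ Z, lt z u := excl u ⟨z', hz', huz'⟩
  have huv : lt u v := by
    have hne : u ≠ v := by
      intro e
      rw [e] at huhigh
      exact huhigh hvhigh
    rcases hchain u huN v hvN hne with h1 | h1
    · exact h1
    · exfalso
      obtain ⟨z, hz, h2⟩ := hvhigh
      exact huhigh ⟨z, hz, trans _ _ _ h2 h1⟩
  have hlov : ∀ z ∈ Z, lt u z → lo lt A v z := by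
    intro z hz huz
    rcases I.tri v z hTv (hZ z hz) with h1 | h1 | h1
    · exact absurd ⟨z, hz, h1⟩ hvlow
    · exact h1
    · exfalso
      obtain ⟨tz, htz, h2⟩ := hwit z hz
      have h3 := hhigh z hz huz tz htz h2
      have h4 : ab lt A tz z := by
        rcases hmin tz (Finset.mem_filter.2 ⟨htz, h3⟩) with e | h4
        · rw [e]; exact h1
        · exact I.hi_mono v tz z hTv (hTNT tz htz) (hZ z hz) h4 h1
      exact I.ta_hi tz z (hTNT tz htz) (hZ z hz) h2 h4
  -- (4)
  have s4 : ∃ z ∈ Z, lo lt A u z ∧ ab lt A v z := by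
    by_contra hcon
    push Not at hcon
    refine count_claim h hZ hanti hcard hTu hTv huv (fun z hz h1 => huhigh ⟨z, hz, h1⟩) ?_
    intro z hz hnab
    rcases I.tri u z hTu (hZ z hz) with h1 | h1 | h1
    · exact hlov z hz h1
    · rcases I.tri v z hTv (hZ z hz) with h2 | h2 | h2
      · exact absurd ⟨z, hz, h2⟩ hvlow
      · exact h2
      · exact absurd h2 (hcon z hz h1)
    · exact absurd h1 hnab
  obtain ⟨z, hz, h1, h2⟩ := s4
  refine ⟨z, hz, z', hz', u, v, hTu, hTv, huv, h1, h2, huz', hlov z' hz' huz', ?_⟩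
  intro t ht htN
  have htTN : t ∈ TN := Finset.mem_filter.2 ⟨Finset.mem_range.2 htN, ht⟩
  rcases s1 t ht with h3 | h3
  · exact Or.inl (hmax t (Finset.mem_filter.2 ⟨htTN, h3⟩))
  · exact Or.inr (hmin t (Finset.mem_filter.2 ⟨htTN, h3⟩))

end Pool.Agent.Helper806.RD
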