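import Pool.Agent.Helper806.RD.Defs

set_option autoImplicit false


namespace Pool.Agent.Helper806.RD


theorem IS.mono_G {tl : ℕ → ℕ → Prop} {T G G' : ℕ → Prop} {be ta hi : ℕ → ℕ → Prop}
    (h : IS tl T G be ta hi) (hG : ∀ x, G' x → G x) : IS tl T G' be ta hi :=
  { tl_trans := h.tl_trans
    tl_irrefl := h.tl_irrefl
    tl_total := h.tl_total
    tri := fun t x ht hx => h.tri t x ht (hG x hx)
    be_ta := fun t x ht hx => h.be_ta t x ht (hG x hx)
    be_hi := fun t x ht hx => h.be_hi t x ht (hG x hx)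
    ta_hi := fun t x ht hx => h.ta_hi t x ht (hG x hx)
    be_mono := fun s t x hs ht hx => h.be_mono s t x hs ht (hG x hx)
    hi_mono := fun s t x hs ht hx => h.hi_mono s t x hs ht (hG x hx)
    wit := fun x hx => h.wit x (hG x hx) }

theorem IS.d0_hi {tl : ℕ → ℕ → Prop} {T G : ℕ → Prop} {be ta hi : ℕ → ℕ → Prop}
    (h : IS tl T G be ta hi) {x z : ℕ} (hx : G x) (hz : G z) (hd : D0 T be ta x z)
    {t : ℕ} (ht : T t) (htm : t < max x z) (htz : ta t z) : hi t x := by
  rcases h.tri t x ht hx with hb | hta | hhi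
  · exfalso
    obtain ⟨t1, h1x, hT1, hta1⟩ := h.wit x hx
    have hbe := hd t1 hT1 (lt_of_lt_of_le h1x (le_max_left _ _)) hta1
    by_cases e : t = t1
    · subst e
      exact h.be_ta _ _ ht hx hb hta1
    · rcases h.tl_total t t1 ht hT1 e with hl | hl
      · exact h.be_ta _ _ ht hz (h.be_mono t t1 z ht hT1 hz hl hbe) htz
      · exact h.be_ta _ _ hT1 hx (h.be_mono t1 t x hT1 ht hx hl hb) hta1
  · exact absurd htz (h.be_ta _ _ ht hz (hd t ht htm hta))
  · exact hhi

theorem IS.d0_mon {tl : ℕ → ℕ → Prop} {T G : ℕ → Prop} {be ta hi : ℕ → ℕ → Prop}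
    (h : IS tl T G be ta hi) {x z : ℕ} (hx : G x) (hz : G z) (hd : D0 T be ta x z) :
    Mon T be hi x z := by
  constructor
  · intro t ht hb
    obtain ⟨t1, h1x, hT1, hta1⟩ := h.wit x hx
    have hbe := hd t1 hT1 (lt_of_lt_of_le h1x (le_max_left _ _)) hta1
    by_cases e : t = t1
    · subst e; exact hbe
    · rcases h.tl_total t t1 ht hT1 e with hl | hl
      · exact h.be_mono t t1 z ht hT1 hz hl hbe
      · exact absurd hta1 (h.be_ta _ _ hT1 hx (h.be_mono t1 t x hT1 ht hx hl hb))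
  · intro t ht hh
    obtain ⟨t2, h2z, hT2, hta2⟩ := h.wit z hz
    have hhi := h.d0_hi hx hz hd hT2 (lt_of_lt_of_le h2z (le_max_right _ _)) hta2
    by_cases e : t = t2
    · subst e; exact hhi
    · rcases h.tl_total t t2 ht hT2 e with hl | hl
      · exact absurd (h.hi_mono t t2 z ht hT2 hz hl hh) (h.ta_hi _ _ hT2 hz hta2)
      · exact h.hi_mono t2 t x hT2 ht hx hl hhi

/-- disjoint at time `max x z` implies ordered -/
theorem IS.d0_total {tl : ℕ → ℕ → Prop} {T G : ℕ → Prop} {be ta hi : ℕ → ℕ → Prop}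
    (h : IS tl T G be ta hi) {x z : ℕ} (hx : G x) (hz : G z) :
    D0 T be ta x z ∨ D0 T be ta z x ∨ ∃ t, T t ∧ t < max x z ∧ ta t x ∧ ta t z := by
  by_contra hcon
  rw [not_or, not_or] at hcon
  obtain ⟨h1, h2, h3⟩ := hcon
  unfold D0 at h1 h2
  push Not at h1 h2 h3
  obtain ⟨t, ht, htm, htx, hbt⟩ := h1
  obtain ⟨t', ht', htm', htz', hbt'⟩ := h2
  rw [max_comm] at htm'
  have hhz : hi t z := by
    rcases h.tri t z ht hz with h4 | h4 | h4
    · exact absurd h4 hbt
    · exact absurd h4 (h3 t ht htm htx)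
    · exact h4
  have hhx : hi t' x := by
    rcases h.tri t' x ht' hx with h4 | h4 | h4
    · exact absurd h4 hbt'
    · exact absurd htz' (h3 t' ht' htm' h4)
    · exact h4
  by_cases e : t = t'
  · subst e
    exact h.ta_hi _ _ ht hx htx hhx
  · rcases h.tl_total t t' ht ht' e with hl | hl
    · exact h.ta_hi _ _ ht' hz htz' (h.hi_mono t t' z ht ht' hz hl hhz)
    · exact h.ta_hi _ _ ht hx htx (h.hi_mono t' t x ht' ht hx hl hhx)

end Pool.Agent.Helper806.RD
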