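import Pool.Agent.Helper806.RD.ConfIS
import Pool.Agent.Helper806.RD.Facts

set_option autoImplicit false

namespace Pool.Agent.Helper806.RD

theorem Mon.trans {T : ℕ → Prop} {be hi : ℕ → ℕ → Prop} {x y z : ℕ}
    (h1 : Mon T be hi x y) (h2 : Mon T be hi y z) : Mon T be hi x z :=
  ⟨fun t ht h => h2.1 t ht (h1.1 t ht h), fun t ht h => h1.2 t ht (h2.2 t ht h)⟩

theorem q_step_mon {q : ℕ} {lt : ℕ → ℕ → Prop} {X S : ℕ → Prop} {A : ℕ → Finset ℕ}
    {T U : ℕ → Prop} (h : Conf q lt X S A T U) {x z : ℕ}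
    (h1 : Q lt A T U x z) : Mon T lt (ab lt A) x z := by
  obtain ⟨hx, hz, -, h2 | h2⟩ := h1
  · exact conf_mon h hx hz h2
  · exact IS.d0_mon (conf_is h) hx hz h2

theorem q_mon {q : ℕ} {lt : ℕ → ℕ → Prop} {X S : ℕ → Prop} {A : ℕ → Finset ℕ}
    {T U : ℕ → Prop} (h : Conf q lt X S A T U) {x z : ℕ}
    (h1 : Relation.TransGen (Q lt A T U) x z) : Mon T lt (ab lt A) x z := by
  induction h1 with
  | single h2 => exact q_step_mon h h2
  | tail _ h2 ih => exact ih.trans (q_step_mon h h2)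

theorem q_path {q : ℕ} {lt : ℕ → ℕ → Prop} {X S : ℕ → Prop} {A : ℕ → Finset ℕ}
    {T U : ℕ → Prop} (h : Conf q lt X S A T U) {x z : ℕ}
    (h1 : Relation.TransGen (Q lt A T U) x z) :
    lt x z ∨ ∃ a b, U a ∧ U b ∧ D0 T lt (lo lt A) a b ∧
      Relation.ReflTransGen (Q lt A T U) x a ∧ Relation.ReflTransGen (Q lt A T U) b z := by
  induction h1 with
  | single h2 =>
    obtain ⟨hx, hz, -, h3 | h3⟩ := h2
    · exact Or.inl h3
    · exact Or.inr ⟨_, _, hx, hz, h3, Relation.ReflTransGen.refl, Relation.ReflTransGen.refl⟩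
  | @tail b c h3 h2 ih =>
    rcases ih with ih | ⟨a, b', ha, hb, hd, r1, r2⟩
    · obtain ⟨hx, hz, hne, h4 | h4⟩ := h2
      · exact Or.inl (h.trans _ _ _ ih h4)
      · exact Or.inr ⟨_, _, hx, hz, h4, h3.to_reflTransGen, Relation.ReflTransGen.refl⟩
    · exact Or.inr ⟨a, b', ha, hb, hd, r1, r2.tail h2⟩

theorem q_irrefl {q : ℕ} {lt : ℕ → ℕ → Prop} {X S : ℕ → Prop} {A : ℕ → Finset ℕ}
    {T U : ℕ → Prop} (h : Conf q lt X S A T U) (x : ℕ) :
    ¬ Relation.TransGen (Q lt A T U) x x := by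
  intro h1
  rcases q_path h h1 with h2 | ⟨a, b, ha, hb, hd, r1, r2⟩
  · exact h.irrefl x h2
  · obtain ⟨t, hta, ht, hlo⟩ := (conf_is h).wit a ha
    have h3 : lt t b := hd t ht (lt_of_lt_of_le hta (le_max_left _ _)) hlo
    have h4 : lt t a := by
      rcases Relation.reflTransGen_iff_eq_or_transGen.1 (r2.trans r1) with h5 | h5
      · rw [h5]; exact h3
      · exact (q_mon h h5).1 t ht h3
    exact hlo.1 h4

end Pool.Agent.Helper806.RD
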