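import Pool.Agent.Helper806.RD.Level

set_option autoImplicit false


namespace Pool.Agent.Helper806.RD



theorem conf_is {q : ℕ} {lt : ℕ → ℕ → Prop} {X S : ℕ → Prop} {A : ℕ → Finset ℕ}
    {T U : ℕ → Prop} (h : Conf q lt X S A T U) : IS lt T U lt (lo lt A) (ab lt A) := by
  refine ⟨h.trans, h.irrefl, h.T_chain, ?_, ?_, ?_, ?_, ?_, ?_, ?_⟩
  · intro t x ht hx
    obtain ⟨hxX, hxS, hxT⟩ := h.UX x hx
    obtain ⟨htX, htS⟩ := h.TX t ht
    by_cases h1 : lt t x
    · exact Or.inl h1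
    by_cases h2 : lt x t
    · exact Or.inr (Or.inr (Or.inl h2))
    by_cases h3 : ∃ a ∈ A x, lt t a
    · exact Or.inr (Or.inl ⟨h1, h2, h3⟩)
    by_cases h4 : ∃ a ∈ A x, lt a t
    · exact Or.inr (Or.inr (Or.inr ⟨h1, h2, h4⟩))
    exfalso
    have htx : t ≠ x := by
      rintro rfl
      exact hxT ht
    have hxA : x ∉ A x := fun hm => hxS (h.A_S x hxX hxS x hm)
    have htA : t ∉ A x := fun hm => htS (h.A_S x hxX hxS t hm)
    have hcard : (insert t (insert x (A x))).card = q + 2 := by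
      rw [Finset.card_insert_of_notMem, Finset.card_insert_of_notMem hxA, h.A_card x hxX hxS]
      simp only [Finset.mem_insert, not_or]
      exact ⟨htx, htA⟩
    have hle := h.wX (insert t (insert x (A x))) ?_ ?_
    · omega
    · intro y hy
      simp only [Finset.mem_insert] at hy
      rcases hy with rfl | rfl | hy
      · exact htX
      · exact hxX
      · exact h.SX y (h.A_S x hxX hxS y hy)
    · intro y hy z hz
      simp only [Finset.mem_insert] at hy hz
      rcases hy with rfl | rfl | hy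
      · rcases hz with rfl | rfl | hz
        · exact h.irrefl _
        · exact h1
        · exact fun hl => h3 ⟨z, hz, hl⟩
      · rcases hz with rfl | rfl | hz
        · exact h2
        · exact h.irrefl _
        · exact (h.A_inc _ hxX hxS z hz).2
      · rcases hz with rfl | rfl | hz
        · exact fun hl => h4 ⟨y, hy, hl⟩
        · exact (h.A_inc _ hxX hxS y hy).1
        · exact h.A_anti x hxX hxS y hy z hz
  · intro t x _ _ h1 h2
    exact h2.1 h1
  · intro t x _ _ h1 h2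
    rcases h2 with h2 | h2
    · exact h.irrefl _ (h.trans _ _ _ h1 h2)
    · exact h2.1 h1
  · intro t x _ hx h1 h2
    obtain ⟨hxX, hxS, _⟩ := h.UX x hx
    obtain ⟨_, n2, a, ha, hta⟩ := h1
    rcases h2 with h2 | ⟨_, _, b, hb, hbt⟩
    · exact n2 h2
    · exact h.A_anti x hxX hxS b hb a ha (h.trans _ _ _ hbt hta)
  · intro s t x _ _ _ hst htx
    exact h.trans _ _ _ hst htx
  · intro s t x _ _ _ hst hsx
    rcases hsx with h1 | ⟨n1, n2, a, ha, has⟩
    · exact Or.inl (h.trans _ _ _ h1 hst)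
    · by_cases h3 : lt x t
      · exact Or.inl h3
      · exact Or.inr ⟨fun h4 => n1 (h.trans _ _ _ hst h4), h3, a, ha, h.trans _ _ _ has hst⟩
  · exact h.wit

theorem conf_mon {q : ℕ} {lt : ℕ → ℕ → Prop} {X S : ℕ → Prop} {A : ℕ → Finset ℕ}
    {T U : ℕ → Prop} (h : Conf q lt X S A T U) {x z : ℕ} (hx : U x) (hz : U z) (hxz : lt x z) :
    Mon T lt (ab lt A) x z := by
  obtain ⟨hxX, hxS, hxT⟩ := h.UX x hx
  obtain ⟨hzX, hzS, hzT⟩ := h.UX z hz
  refine ⟨fun t _ htx => h.trans _ _ _ htx hxz, ?_⟩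
  intro t ht htz
  obtain ⟨htX, htS⟩ := h.TX t ht
  have htx : x ≠ t := by
    rintro rfl
    exact hxT ht
  have htz' : z ≠ t := by
    rintro rfl
    exact hzT ht
  rcases htz with h1 | ⟨n1, n2, h3⟩
  · exact Or.inl (h.trans _ _ _ hxz h1)
  · obtain ⟨b, hb, hzb⟩ := (level_iff h.toBase hzX hzS htX htS htz' n2 n1).2 h3
    have hxb : lt x b := h.trans _ _ _ hxz hzb
    by_cases h4 : lt x t
    · exact Or.inl h4
    · have h5 : ¬ lt t x := fun h5 => n1 (h.trans _ _ _ h5 hxz)
      exact Or.inr ⟨h5, h4, (level_iff h.toBase hxX hxS htX htS htx h4 h5).1 ⟨b, hb, hxb⟩⟩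

end Pool.Agent.Helper806.RD
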