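import Mathlib

/-!
# Recursive chain covers and recursive dimension: definitions
-/

set_option autoImplicit false

namespace Pool.Agent.Helper806.RD

/-- computable binary relation -/
def CR (r : ℕ → ℕ → Prop) : Prop := ComputablePred fun p : ℕ × ℕ => r p.1 p.2

/-- every finite antichain contained in `X` has at most `w` elements -/
def WidthLe (lt : ℕ → ℕ → Prop) (X : ℕ → Prop) (w : ℕ) : Prop :=
  ∀ F : Finset ℕ, (∀ x ∈ F, X x) → (∀ x ∈ F, ∀ y ∈ F, ¬ lt x y) → F.card ≤ w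

/-- `X` is covered by `m` computable chains -/
def HasCover (lt : ℕ → ℕ → Prop) (X : ℕ → Prop) (m : ℕ) : Prop :=
  ∃ c : ℕ → ℕ, Computable c ∧ (∀ x, X x → c x < m) ∧
    ∀ x y, X x → X y → c x = c y → x ≠ y → lt x y ∨ lt y x

/-- every computable order of width at most `q` is covered by `k` computable chains -/
def Cover (q k : ℕ) : Prop :=
  ∀ (lt : ℕ → ℕ → Prop) (X : ℕ → Prop), CR lt → ComputablePred X →
    (∀ x y z, lt x y → lt y z → lt x z) → (∀ x, ¬ lt x x) → WidthLe lt X q → HasCover lt X k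

/-- an order `X` of width at most `q + 1`, a subset `S` of width at most `q`, and for every
`x ∈ X \ S` a `q`-element antichain `A x ⊆ S` of elements incomparable to `x` -/
structure Base (q : ℕ) (lt : ℕ → ℕ → Prop) (X S : ℕ → Prop) (A : ℕ → Finset ℕ) : Prop where
  trans : ∀ x y z, lt x y → lt y z → lt x z
  irrefl : ∀ x, ¬ lt x x
  wX : WidthLe lt X (q + 1)
  wS : WidthLe lt S q
  SX : ∀ x, S x → X x
  A_S : ∀ x, X x → ¬ S x → ∀ a ∈ A x, S a
  A_card : ∀ x, X x → ¬ S x → (A x).card = q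
  A_anti : ∀ x, X x → ¬ S x → ∀ a ∈ A x, ∀ b ∈ A x, ¬ lt a b
  A_inc : ∀ x, X x → ¬ S x → ∀ a ∈ A x, ¬ lt a x ∧ ¬ lt x a

/-- `t` is incomparable to `x` and lies on a lower level than `x` -/
def lo (lt : ℕ → ℕ → Prop) (A : ℕ → Finset ℕ) (t x : ℕ) : Prop :=
  ¬ lt t x ∧ ¬ lt x t ∧ ∃ a ∈ A x, lt t a

/-- `t` is above `x`, or incomparable to `x` and on a higher level than `x` -/
def ab (lt : ℕ → ℕ → Prop) (A : ℕ → Finset ℕ) (t x : ℕ) : Prop :=
  lt x t ∨ (¬ lt t x ∧ ¬ lt x t ∧ ∃ a ∈ A x, lt a t)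

/-- in addition: a chain `T` outside `S` and a set `U` outside `S ∪ T` such that every `x ∈ U`
has an earlier element of `T` incomparable to it on a lower level -/
structure Conf (q : ℕ) (lt : ℕ → ℕ → Prop) (X S : ℕ → Prop) (A : ℕ → Finset ℕ)
    (T U : ℕ → Prop) : Prop extends Base q lt X S A where
  TX : ∀ t, T t → X t ∧ ¬ S t
  T_chain : ∀ s t, T s → T t → s ≠ t → lt s t ∨ lt t s
  UX : ∀ x, U x → X x ∧ ¬ S x ∧ ¬ T x
  wit : ∀ x, U x → ∃ t, t < x ∧ T t ∧ lo lt A t x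

/-- an interval system: `T` is a chain for `tl`, and every `x ∈ G` cuts `T` into the elements below
(`be t x`), inside (`ta t x`) and above (`hi t x`) the interval of `x` -/
structure IS (tl : ℕ → ℕ → Prop) (T G : ℕ → Prop) (be ta hi : ℕ → ℕ → Prop) : Prop where
  tl_trans : ∀ r s t, tl r s → tl s t → tl r t
  tl_irrefl : ∀ t, ¬ tl t t
  tl_total : ∀ s t, T s → T t → s ≠ t → tl s t ∨ tl t s
  tri : ∀ t x, T t → G x → be t x ∨ ta t x ∨ hi t x
  be_ta : ∀ t x, T t → G x → be t x → ¬ ta t x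
  be_hi : ∀ t x, T t → G x → be t x → ¬ hi t x
  ta_hi : ∀ t x, T t → G x → ta t x → ¬ hi t x
  be_mono : ∀ s t x, T s → T t → G x → tl s t → be t x → be s x
  hi_mono : ∀ s t x, T s → T t → G x → tl s t → hi s x → hi t x
  wit : ∀ x, G x → ∃ t, t < x ∧ T t ∧ ta t x

/-- at time `max x z` the interval of `x` lies below the interval of `z` -/
def D0 (T : ℕ → Prop) (be ta : ℕ → ℕ → Prop) (x z : ℕ) : Prop :=
  ∀ t, T t → t < max x z → ta t x → be t z

/-- both ends of the interval of `x` are weakly below those of `z` -/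
def Mon (T : ℕ → Prop) (be hi : ℕ → ℕ → Prop) (x z : ℕ) : Prop :=
  (∀ t, T t → be t x → be t z) ∧ (∀ t, T t → hi t z → hi t x)

/-- at time `N` the intervals of `z` and `z'` are disjoint and adjacent -/
def Bad (tl : ℕ → ℕ → Prop) (T : ℕ → Prop) (be ta hi : ℕ → ℕ → Prop) (N z z' : ℕ) : Prop :=
  ∃ u v, T u ∧ T v ∧ tl u v ∧ ta u z ∧ hi v z ∧ be u z' ∧ ta v z' ∧
    ∀ t, T t → t < N → (t = u ∨ tl t u) ∨ (t = v ∨ tl v t)

/-- the basic relation on `U` -/
def Q (lt : ℕ → ℕ → Prop) (A : ℕ → Finset ℕ) (T U : ℕ → Prop) (x z : ℕ) : Prop :=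
  U x ∧ U z ∧ x ≠ z ∧ (lt x z ∨ D0 T lt (lo lt A) x z)

end Pool.Agent.Helper806.RD
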