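import Pool.Agent.Helper806.RD.Defs
import Pool.Agent.Helper806.RD.SRec

set_option autoImplicit false


namespace Pool.Agent.Helper806.RD

open Pool.Agent.Helper806.RE


/-- a finite nonempty subset of a linear order has a least element -/
theorem dyn_least {F : ℕ → Prop} {pr : ℕ → ℕ → Prop}
    (trans : ∀ x y z, F x → F y → F z → pr x y → pr y z → pr x z)
    (total : ∀ x y, F x → F y → x ≠ y → pr x y ∨ pr y x) (W : Finset ℕ) :
    W.Nonempty → (∀ e ∈ W, F e) → ∃ m ∈ W, ∀ e ∈ W, e ≠ m → pr m e := by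
  classical
  induction W using Finset.induction_on with
  | empty => intro h; exact absurd h (by simp)
  | insert a s ha ih =>
    intro _ hF
    have hFa : F a := hF a (Finset.mem_insert_self _ _)
    have hFs : ∀ e ∈ s, F e := fun e he => hF e (Finset.mem_insert_of_mem he)
    rcases s.eq_empty_or_nonempty with hs | hs
    · refine ⟨a, Finset.mem_insert_self _ _, fun e he hne => ?_⟩
      rw [Finset.mem_insert] at he
      rcases he with he | he
      · exact absurd he hne
      · rw [hs] at he; simp at he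
    · obtain ⟨m, hm, hmin⟩ := ih hs hFs
      have hma : m ≠ a := fun h => ha (h ▸ hm)
      rcases total m a (hFs m hm) hFa hma with h | h
      · refine ⟨m, Finset.mem_insert_of_mem hm, fun e he hne => ?_⟩
        rw [Finset.mem_insert] at he
        rcases he with he | he
        · rw [he]; exact h
        · exact hmin e he hne
      · refine ⟨a, Finset.mem_insert_self _ _, fun e he hne => ?_⟩
        rw [Finset.mem_insert] at he
        rcases he with he | he
        · exact absurd he hne
        · by_cases hem : e = m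
          · rw [hem]; exact h
          · exact trans a m e hFa (hFs m hm) (hFs e he) h (hmin e he hem)

open Classical in
/-- number of earlier elements between -/
noncomputable def nearCount (F : ℕ → Prop) (pr : ℕ → ℕ → Prop) (x y : ℕ) : ℕ :=
  Nat.count (fun e => F e ∧ ((pr x e ∧ pr e y) ∨ (pr y e ∧ pr e x))) (max x y)

theorem nearCount_comp {F : ℕ → Prop} {pr : ℕ → ℕ → Prop} (hF : ComputablePred F) (hpr : CR pr) :
    Computable fun p : ℕ × ℕ => nearCount F pr p.1 p.2 := by
  classical
  have hc : ComputablePred fun q : (ℕ × ℕ) × (ℕ × ℕ) =>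
      F q.2.1 ∧ ((pr q.1.1 q.2.1 ∧ pr q.2.1 q.1.2) ∨ (pr q.1.2 q.2.1 ∧ pr q.2.1 q.1.1)) := by
    refine cp_and (cp_comp hF (f := fun q : (ℕ × ℕ) × (ℕ × ℕ) => q.2.1) (by fun_prop))
      (cp_or (cp_and ?_ ?_) (cp_and ?_ ?_))
    · exact cp_comp hpr (f := fun q : (ℕ × ℕ) × (ℕ × ℕ) => (q.1.1, q.2.1)) (by fun_prop)
    · exact cp_comp hpr (f := fun q : (ℕ × ℕ) × (ℕ × ℕ) => (q.2.1, q.1.2)) (by fun_prop)
    · exact cp_comp hpr (f := fun q : (ℕ × ℕ) × (ℕ × ℕ) => (q.1.2, q.2.1)) (by fun_prop)
    · exact cp_comp hpr (f := fun q : (ℕ × ℕ) × (ℕ × ℕ) => (q.2.1, q.1.1)) (by fun_prop)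
  have h := Computable.nat_rec (f := fun p : ℕ × ℕ => max p.1 p.2) (g := fun _ : ℕ × ℕ => (0 : ℕ))
    (h := fun (p : ℕ × ℕ) (z : ℕ × ℕ) => z.2 +
      if F z.1 ∧ ((pr p.1 z.1 ∧ pr z.1 p.2) ∨ (pr p.2 z.1 ∧ pr z.1 p.1)) then 1 else 0)
    (by fun_prop) (Computable.const 0) (by
      unfold Computable₂
      exact cadd (by fun_prop) (cite hc (Computable.const 1) (Computable.const 0)))
  refine h.of_eq fun p => ?_
  unfold nearCount
  generalize max p.1 p.2 = n
  induction n with
  | zero => simp
  | succ n ih => rw [Nat.count_succ, ← ih]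

/-- at most five earlier near elements below -/
theorem dyn_five {F : ℕ → Prop} {pr : ℕ → ℕ → Prop} 
    (trans : ∀ x y z, F x → F y → F z → pr x y → pr y z → pr x z)
    (total : ∀ x y, F x → F y → x ≠ y → pr x y ∨ pr y x) (n : ℕ)
    (W : Finset ℕ) (hW : ∀ x ∈ W, x < n ∧ F x ∧ pr x n ∧
      ∀ E : Finset ℕ, (∀ e ∈ E, e < n ∧ F e ∧ pr x e ∧ pr e n) → E.card ≤ 4) :
    W.card ≤ 5 := by
  classical
  by_contra hcon
  push Not at hcon
  have hne : W.Nonempty := by
    rw [← Finset.card_pos]; omega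
  obtain ⟨m, hm, hmin⟩ := dyn_least trans total W hne fun e he => (hW e he).2.1
  have h := (hW m hm).2.2.2 (W.erase m) fun e he => by
    rw [Finset.mem_erase] at he
    have := hW e he.2
    exact ⟨this.1, this.2.1, hmin e he.2 he.1, this.2.2.1⟩
  rw [Finset.card_erase_of_mem hm] at h
  omega

/-- at most ten earlier near elements -/
theorem dyn_ten {F : ℕ → Prop} {pr : ℕ → ℕ → Prop}
    (trans : ∀ x y z, F x → F y → F z → pr x y → pr y z → pr x z)
    (total : ∀ x y, F x → F y → x ≠ y → pr x y ∨ pr y x) (n : ℕ) (hn : F n)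
    (W : Finset ℕ) (hW : ∀ x ∈ W, x < n ∧ F x ∧ nearCount F pr x n ≤ 4) : W.card ≤ 10 := by
  classical
  have key : ∀ x, x < n → nearCount F pr x n ≤ 4 → ∀ E : Finset ℕ,
      (∀ e ∈ E, e < n ∧ F e ∧ ((pr x e ∧ pr e n) ∨ (pr n e ∧ pr e x))) → E.card ≤ 4 := by
    intro x hx hnear E hE
    refine le_trans ?_ hnear
    unfold nearCount
    rw [Nat.count_eq_card_filter_range, max_eq_right hx.le]
    apply Finset.card_le_card
    intro e he
    rw [Finset.mem_filter, Finset.mem_range]
    exact ⟨(hE e he).1, (hE e he).2⟩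
  have h1 : (W.filter fun x => pr x n).card ≤ 5 := by
    apply dyn_five trans total n
    intro x hx
    rw [Finset.mem_filter] at hx
    obtain ⟨a, b, c⟩ := hW x hx.1
    exact ⟨a, b, hx.2, fun E hE => key x a c E fun e he =>
      ⟨(hE e he).1, (hE e he).2.1, Or.inl (hE e he).2.2⟩⟩
  have h2 : (W.filter fun x => ¬ pr x n).card ≤ 5 := by
    apply dyn_five (F := F) (pr := fun x y => pr y x)
      (fun x y z hx hy hz h1 h2 => trans z y x hz hy hx h2 h1)
      (fun x y hx hy hne => (total x y hx hy hne).symm) n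
    intro x hx
    rw [Finset.mem_filter] at hx
    obtain ⟨a, b, c⟩ := hW x hx.1
    refine ⟨a, b, ?_, fun E hE => key x a c E fun e he =>
      ⟨(hE e he).1, (hE e he).2.1, Or.inr ⟨(hE e he).2.2.2, (hE e he).2.2.1⟩⟩⟩
    rcases total x n b hn (by omega) with h | h
    · exact absurd h hx.2
    · exact h
  have := Finset.card_filter_add_card_filter_not (s := W) (fun x => pr x n)
  omega

/-- colouring of a computable linear order so that near elements get different colours -/
theorem dyn_colour {F : ℕ → Prop} {pr : ℕ → ℕ → Prop} (hF : ComputablePred F) (hpr : CR pr)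
    (irrefl : ∀ x, F x → ¬ pr x x)
    (trans : ∀ x y z, F x → F y → F z → pr x y → pr y z → pr x z)
    (total : ∀ x y, F x → F y → x ≠ y → pr x y ∨ pr y x) :
    ∃ col : ℕ → ℕ, Computable col ∧ (∀ x, F x → col x < 11) ∧
      ∀ x y, F x → F y → x ≠ y →
        (∀ E : Finset ℕ, (∀ e ∈ E, F e ∧ e < max x y ∧ ((pr x e ∧ pr e y) ∨ (pr y e ∧ pr e x))) →
          E.card ≤ 4) → col x ≠ col y := by
  classical
  have hnear := nearCount_comp hF hpr
  have hr : ComputablePred fun p : ℕ × List ℕ × ℕ => F p.1 → (p.2.2 < 11 ∧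
      ∀ x < p.1, F x → nearCount F pr x p.1 ≤ 4 → p.2.1[x]? ≠ some p.2.2) := by
    refine cp_imp (cp_comp hF (f := fun p : ℕ × List ℕ × ℕ => p.1) (by fun_prop)) (cp_and ?_ ?_)
    · exact cp_lt (by fun_prop) (by fun_prop)
    · refine cp_all_lt (p := fun (p : ℕ × List ℕ × ℕ) x => F x → nearCount F pr x p.1 ≤ 4 →
        p.2.1[x]? ≠ some p.2.2) ?_ (by fun_prop)
      refine cp_imp (cp_comp hF (f := fun q : (ℕ × List ℕ × ℕ) × ℕ => q.2) (by fun_prop))
        (cp_imp ?_ ?_)
      · exact cp_le (hnear.comp (g := fun q : (ℕ × List ℕ × ℕ) × ℕ => (q.2, q.1.1))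
          (by fun_prop)) (by fun_prop)
      · exact cp_not (cp_eq (by fun_prop) (by fun_prop))
  obtain ⟨col, hcol, hrc⟩ := strong_rec_sel (r := fun n l c => F n → (c < 11 ∧
      ∀ x < n, F x → nearCount F pr x n ≤ 4 → l[x]? ≠ some c)) hr.to_re (by
    intro n l
    by_cases hn : F n
    · set W : Finset ℕ := (Finset.range n).filter fun x => F x ∧ nearCount F pr x n ≤ 4 with hW
      have hWc : W.card ≤ 10 := by
        apply dyn_ten trans total n hn
        intro x hx
        rw [hW, Finset.mem_filter, Finset.mem_range] at hx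
        exact hx
      have hI : (W.image fun x => (l[x]?).getD 0).card < (Finset.range 11).card := by
        rw [Finset.card_range]
        exact lt_of_le_of_lt Finset.card_image_le (by omega)
      obtain ⟨c, hc, hc2⟩ := Finset.exists_mem_notMem_of_card_lt_card hI
      refine ⟨c, fun _ => ⟨Finset.mem_range.1 hc, fun x hx hFx hnx heq => hc2 ?_⟩⟩
      rw [Finset.mem_image]
      refine ⟨x, ?_, by rw [heq]; rfl⟩
      rw [hW, Finset.mem_filter, Finset.mem_range]
      exact ⟨hx, hFx, hnx⟩
    · exact ⟨0, fun h => absurd h hn⟩)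
  have main : ∀ x y, F x → F y → x < y → (∀ E : Finset ℕ, (∀ e ∈ E, F e ∧ e < max x y ∧
      ((pr x e ∧ pr e y) ∨ (pr y e ∧ pr e x))) → E.card ≤ 4) → col x ≠ col y := by
    intro x y hx hy hxy hE heq
    have h := (hrc y hy).2 x hxy hx (by
      unfold nearCount
      rw [Nat.count_eq_card_filter_range]
      apply hE
      intro e he
      rw [Finset.mem_filter, Finset.mem_range] at he
      exact ⟨he.2.1, he.1, he.2.2⟩)
    apply h
    rw [List.getElem?_map, List.getElem?_range hxy]
    simp [heq]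
  refine ⟨col, hcol, fun x hx => (hrc x hx).1, fun x y hx hy hne hE => ?_⟩
  rcases lt_or_gt_of_ne hne with h | h
  · exact main x y hx hy h hE
  · refine (main y x hy hx h fun E hE2 => hE E fun e he => ?_).symm
    have := hE2 e he
    rw [max_comm]
    exact ⟨this.1, this.2.1, this.2.2.symm⟩

end Pool.Agent.Helper806.RD
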