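import Pool.Agent.Helper806.RD.Main

set_option autoImplicit false

namespace Pool.Agent.Helper806.RD

open Pool.Agent.Helper806.RE

theorem cst_cp {lt : ℕ → ℕ → Prop} {X : ℕ → Prop} {κ : ℕ → ℕ} (hlt : CR lt)
    (hX : ComputablePred X) (hκ : Computable κ) :
    ComputablePred fun p : ℕ × ℕ × ℕ => Cst lt X κ p.1 p.2.1 p.2.2 := by
  have hX' : ∀ {f : ((ℕ × ℕ × ℕ) × ℕ) × ℕ → ℕ}, Computable f → ComputablePred fun a => X (f a) :=
    fun hf => cp_comp hX hf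
  have key : ComputablePred fun p : ℕ × ℕ × ℕ =>
      ∀ y < p.1 + 1, ∀ x < p.1 + 1, X y → X x → (y = p.2.1 ∨ lt y p.2.1) →
        (x = p.2.2 ∨ lt p.2.2 x) → κ x < κ y → lt y x := by
    refine cp_all_lt (p := fun (p : ℕ × ℕ × ℕ) y => ∀ x < p.1 + 1, X y → X x →
      (y = p.2.1 ∨ lt y p.2.1) → (x = p.2.2 ∨ lt p.2.2 x) → κ x < κ y → lt y x) ?_ (by fun_prop)
    refine cp_all_lt (p := fun (a : (ℕ × ℕ × ℕ) × ℕ) x => X a.2 → X x →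
      (a.2 = a.1.2.1 ∨ lt a.2 a.1.2.1) → (x = a.1.2.2 ∨ lt a.1.2.2 x) → κ x < κ a.2 →
        lt a.2 x) ?_ (by fun_prop)
    refine cp_imp (cp_comp hX (f := fun a : ((ℕ × ℕ × ℕ) × ℕ) × ℕ => a.1.2) (by fun_prop)) ?_
    refine cp_imp (cp_comp hX (f := fun a : ((ℕ × ℕ × ℕ) × ℕ) × ℕ => a.2) (by fun_prop)) ?_
    refine cp_imp (cp_or (cp_eq (by fun_prop) (by fun_prop)) ?_) ?_
    · exact cp_comp hlt (f := fun a : ((ℕ × ℕ × ℕ) × ℕ) × ℕ => (a.1.2, a.1.1.2.1)) (by fun_prop)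
    refine cp_imp (cp_or (cp_eq (by fun_prop) (by fun_prop)) ?_) ?_
    · exact cp_comp hlt (f := fun a : ((ℕ × ℕ × ℕ) × ℕ) × ℕ => (a.1.1.2.2, a.2)) (by fun_prop)
    refine cp_imp (cp_lt (hκ.comp (by fun_prop)) (hκ.comp (by fun_prop))) ?_
    exact cp_comp hlt (f := fun a : ((ℕ × ℕ × ℕ) × ℕ) × ℕ => (a.1.2, a.2)) (by fun_prop)
  have h2 : ComputablePred fun p : ℕ × ℕ × ℕ => X p.2.1 ∧ X p.2.2 ∧ p.2.1 ≠ p.2.2 ∧
      ¬ lt p.2.2 p.2.1 ∧ ∀ y < p.1 + 1, ∀ x < p.1 + 1, X y → X x → (y = p.2.1 ∨ lt y p.2.1) →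
        (x = p.2.2 ∨ lt p.2.2 x) → κ x < κ y → lt y x := by
    refine cp_and (cp_comp hX (f := fun a : ℕ × ℕ × ℕ => a.2.1) (by fun_prop)) ?_
    refine cp_and (cp_comp hX (f := fun a : ℕ × ℕ × ℕ => a.2.2) (by fun_prop)) ?_
    refine cp_and (cp_not (cp_eq (f := fun a : ℕ × ℕ × ℕ => a.2.1)
      (g := fun a : ℕ × ℕ × ℕ => a.2.2) (by fun_prop) (by fun_prop))) ?_
    refine cp_and (cp_not (cp_comp hlt (f := fun a : ℕ × ℕ × ℕ => (a.2.2, a.2.1))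
      (by fun_prop))) key
  refine h2.of_eq fun p => ?_
  unfold Cst
  simp only [Nat.lt_succ_iff, ne_eq]

/-- the positive answer, for strict orders -/
theorem main {w k : ℕ} (hk : Cover w k) {lt : ℕ → ℕ → Prop} {X : ℕ → Prop} (hlt : CR lt)
    (hX : ComputablePred X) (trans : ∀ x y z, lt x y → lt y z → lt x z)
    (irrefl : ∀ x, ¬ lt x x) (hw : WidthLe lt X w)
    (crown : ∀ a₁ a₂ a₃ b₁ b₂ b₃ : ℕ, X a₁ → X a₂ → X a₃ → X b₁ → X b₂ → X b₃ →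
      lt a₁ b₂ → lt a₁ b₃ → lt a₂ b₁ → lt a₂ b₃ → lt a₃ b₁ → lt a₃ b₂ →
      a₁ ≠ b₁ → ¬ lt a₁ b₁ → ¬ lt b₁ a₁ → a₂ ≠ b₂ → ¬ lt a₂ b₂ → ¬ lt b₂ a₂ →
      a₃ ≠ b₃ → ¬ lt a₃ b₃ → ¬ lt b₃ a₃ →
      a₁ ≠ a₂ → ¬ lt a₁ a₂ → ¬ lt a₂ a₁ → a₁ ≠ a₃ → ¬ lt a₁ a₃ → ¬ lt a₃ a₁ →
      a₂ ≠ a₃ → ¬ lt a₂ a₃ → ¬ lt a₃ a₂ →
      b₁ ≠ b₂ → ¬ lt b₁ b₂ → ¬ lt b₂ b₁ → b₁ ≠ b₃ → ¬ lt b₁ b₃ → ¬ lt b₃ b₁ →
      b₂ ≠ b₃ → ¬ lt b₂ b₃ → ¬ lt b₃ b₂ → False) :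
    ∃ L : Fin k.factorial → ℕ → ℕ → Prop, (∀ i, CR (L i)) ∧ (∀ i x, ¬ L i x x) ∧
      (∀ i x y z, L i x y → L i y z → L i x z) ∧ (∀ i x y, x ≠ y → L i x y ∨ L i y x) ∧
      (∀ i x y, X x → X y → lt x y → L i x y) ∧
      ∀ x y, X x → X y → x ≠ y → ¬ lt x y → ¬ lt y x → ∃ i, L i y x := by
  classical
  obtain ⟨c, hc, ck, cc⟩ := hk lt X hlt hX trans irrefl hw
  -- the labels
  let lab : Equiv.Perm (Fin k) → ℕ → ℕ := fun π x =>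
    ((List.ofFn fun i : Fin k => (π i : ℕ))[c x]?).getD 0
  have hlab : ∀ π, Computable (lab π) := by
    intro π
    have h1 : Computable fun x => (List.ofFn fun i : Fin k => (π i : ℕ))[c x]? :=
      cgetElem (cconst _) hc
    exact Computable.option_getD h1 (cconst 0)
  have lab_eq : ∀ π x (hx : X x), lab π x = (π ⟨c x, ck x hx⟩ : ℕ) := by
    intro π x hx
    have h1 := ck x hx
    simp [lab, h1]
  have hcomp : ∀ π x y, X x → X y → lab π x = lab π y → x ≠ y → lt x y ∨ lt y x := by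
    intro π x y hx hy he hne
    rw [lab_eq π x hx, lab_eq π y hy] at he
    have h2 : c x = c y := by
      have := π.injective (Fin.ext he)
      simpa using this
    exact cc x y hx hy h2 hne
  have hext := fun π => linear_ext (E := fun n x y => Cst lt X (lab π) n x y)
    (cst_cp hlt hX (hlab π)) (fun n x h => h.2.2.1 rfl)
    (fun n x y z hx hy hz => cst_trans trans irrefl (hcomp π) n x y z hx hy hz)
    (fun m n x y hmn hx hy h => ⟨h.1, h.2.1, h.2.2.1, h.2.2.2.1,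
      fun a ha b hb => h.2.2.2.2 a (ha.trans hmn) b (hb.trans hmn)⟩)
  choose L hL using hext
  have hcard : Fintype.card (Equiv.Perm (Fin k)) = k.factorial := by
    rw [Fintype.card_perm, Fintype.card_fin]
  let e : Fin k.factorial ≃ Equiv.Perm (Fin k) :=
    (finCongr hcard.symm).trans (Fintype.equivFin _).symm
  refine ⟨fun i => L (e i), fun i => (hL _).1, fun i => (hL _).2.1, fun i => (hL _).2.2.1,
    fun i => (hL _).2.2.2.1, ?_, ?_⟩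
  · intro i x y hx hy hxy
    exact (hL (e i)).2.2.2.2 x y (cst_of_lt trans irrefl _ x y hx hy hxy)
  · intro x y hx hy hne h1 h2
    obtain ⟨π, hπ⟩ := cst_exists trans irrefl ck cc crown hx hy hne h1 h2
    refine ⟨e.symm π, ?_⟩
    have h3 := hπ (lab π) (fun z hz => lab_eq π z hz)
    simp only [Equiv.apply_symm_apply]
    refine (hL π).2.2.2.2 y x ?_
    rw [max_comm]
    exact h3

end Pool.Agent.Helper806.RD
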