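import Pool.Agent.Helper806.RD.Defs
import Pool.Agent.Helper806.RD.SRec

set_option autoImplicit false


namespace Pool.Agent.Helper806.RD

open Pool.Agent.Helper806.RE


theorem greedy {G : ℕ → Prop} {C : ℕ → ℕ → Prop} (hG : ComputablePred G) (hC : CR C) :
    ∃ F : ℕ → Prop, ComputablePred F ∧ ∀ x, F x ↔ G x ∧ ∀ y < x, F y → C x y := by
  classical
  have hr : REPred fun p : ℕ × List ℕ × ℕ => p.2.2 ≤ 1 ∧
      (p.2.2 = 1 ↔ G p.1 ∧ ∀ y < p.1, p.2.1[y]? = some 1 → C p.1 y) := by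
    apply ComputablePred.to_re
    refine cp_and (cp_le (by fun_prop) (by fun_prop)) ?_
    refine cp_iff (cp_eq (by fun_prop) (by fun_prop)) ?_
    refine cp_and (cp_comp hG (by fun_prop)) ?_
    refine cp_all_lt (p := fun (p : ℕ × List ℕ × ℕ) y => p.2.1[y]? = some 1 → C p.1 y) ?_
      (by fun_prop)
    refine cp_imp (cp_eq (by fun_prop) (by fun_prop)) ?_
    exact cp_comp (p := fun p : ℕ × ℕ => C p.1 p.2) hC
      (f := fun x : (ℕ × List ℕ × ℕ) × ℕ => (x.1.1, x.2)) (by fun_prop)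
  obtain ⟨f, hf, hfr⟩ := strong_rec_sel (β := ℕ)
    (r := fun n l c => c ≤ 1 ∧ (c = 1 ↔ G n ∧ ∀ y < n, l[y]? = some 1 → C n y)) hr (by
      intro n l
      by_cases h : G n ∧ ∀ y < n, l[y]? = some 1 → C n y
      · exact ⟨1, le_rfl, fun _ => h, fun _ => rfl⟩
      · exact ⟨0, by omega, fun h0 => absurd h0 (by omega), fun h0 => absurd h0 h⟩)
  refine ⟨fun x => f x = 1, cp_eq hf (Computable.const 1), fun x => ?_⟩
  show f x = 1 ↔ _
  rw [(hfr x).2]
  refine and_congr_right fun _ => forall_congr' fun y => forall_congr' fun hy => ?_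
  have : ((List.range x).map f)[y]? = some (f y) := by
    rw [List.getElem?_map, List.getElem?_range hy]; rfl
  rw [this, Option.some.injEq]

end Pool.Agent.Helper806.RD

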