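import Pool.Agent.Helper806.RD.Facts
import Pool.Agent.Helper806.RD.Dyn
import Pool.Agent.Helper806.RD.Greedy

set_option autoImplicit false


namespace Pool.Agent.Helper806.RD

open Pool.Agent.Helper806.RE



theorem ta_conv {tl : ℕ → ℕ → Prop} {T G : ℕ → Prop} {be ta hi : ℕ → ℕ → Prop}
    (h : IS tl T G be ta hi) {r s t x : ℕ} (hr : T r) (hs : T s) (ht : T t) (hx : G x)
    (h1 : r = s ∨ tl r s) (h2 : s = t ∨ tl s t) (hrx : ta r x) (htx : ta t x) : ta s x := by
  rcases h1 with rfl | h1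
  · exact hrx
  rcases h2 with rfl | h2
  · exact htx
  rcases h.tri s x hs hx with h3 | h3 | h3
  · exact absurd hrx (h.be_ta r x hr hx (h.be_mono r s x hr hs hx h1 h3))
  · exact h3
  · exact absurd (h.hi_mono s t x hs ht hx h2 h3) (h.ta_hi t x ht hx htx)

theorem three_false {tl : ℕ → ℕ → Prop} {T G : ℕ → Prop} {be ta hi o : ℕ → ℕ → Prop}
    (h : IS tl T G be ta hi)
    (o_total : ∀ x z, G x → G z → x ≠ z → o x z ∨ o z x)
    (o_mon : ∀ x z, G x → G z → o x z → Mon T be hi x z)
    {e1 e2 e3 z t1 t3 : ℕ} (g1 : G e1) (g2 : G e2) (g3 : G e3) (gz : G z)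
    (d12 : D0 T be ta e1 e2) (d23 : D0 T be ta e2 e3)
    (h1 : t1 < e1) (T1 : T t1) (a1 : ta t1 e1) (b1 : ta t1 z)
    (h3 : t3 < e3) (T3 : T t3) (a3 : ta t3 e3) (b3 : ta t3 z) : False := by
  have k1 : be t1 e2 := d12 t1 T1 (lt_of_lt_of_le h1 (le_max_left _ _)) a1
  have k3 : hi t3 e2 := h.d0_hi g2 g3 d23 T3 (lt_of_lt_of_le h3 (le_max_right _ _)) a3
  have hne : z ≠ e2 := by
    rintro rfl
    exact h.be_ta t1 _ T1 gz k1 b1
  rcases o_total z e2 gz g2 hne with ho | ho
  · exact h.ta_hi t3 z T3 gz b3 ((o_mon z e2 gz g2 ho).2 t3 T3 k3)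
  · exact h.be_ta t1 z T1 gz ((o_mon e2 z g2 gz ho).1 t1 T1 k1) b1

theorem card_le_two {tl : ℕ → ℕ → Prop} {T G : ℕ → Prop} {be ta hi o : ℕ → ℕ → Prop}
    (h : IS tl T G be ta hi)
    (o_total : ∀ x z, G x → G z → x ≠ z → o x z ∨ o z x)
    (o_mon : ∀ x z, G x → G z → o x z → Mon T be hi x z)
    {z : ℕ} (gz : G z) (E : Finset ℕ) (hG : ∀ e ∈ E, G e)
    (hE : ∀ e ∈ E, ∃ t, t < e ∧ T t ∧ ta t e ∧ ta t z)
    (tot : ∀ x ∈ E, ∀ y ∈ E, x ≠ y → D0 T be ta x y ∨ D0 T be ta y x) : E.card ≤ 2 := by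
  by_contra hcon
  push Not at hcon
  obtain ⟨a, b, c, ha, hb, hc, hab, hac, hbc⟩ := Finset.two_lt_card_iff.1 hcon
  have key : ∀ x y w, x ∈ E → y ∈ E → w ∈ E → D0 T be ta x y → D0 T be ta y w → False := by
    intro x y w hx hy hw h1 h2
    obtain ⟨t1, p1, p2, p3, p4⟩ := hE x hx
    obtain ⟨t3, q1, q2, q3, q4⟩ := hE w hw
    exact three_false h o_total o_mon (hG x hx) (hG y hy) (hG w hw) gz h1 h2 p1 p2 p3 p4 q1 q2 q3 q4
  rcases tot a ha b hb hab with h1 | h1 <;> rcases tot b hb c hc hbc with h2 | h2 <;>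
    rcases tot a ha c hc hac with h3 | h3
  · exact key a b c ha hb hc h1 h2
  · exact key a b c ha hb hc h1 h2
  · exact key a c b ha hc hb h3 h2
  · exact key c a b hc ha hb h3 h1
  · exact key b a c hb ha hc h1 h3
  · exact key b c a hb hc ha h2 h3
  · exact key c b a hc hb ha h2 h1
  · exact key c b a hc hb ha h2 h1

theorem found_colour {tl : ℕ → ℕ → Prop} {T G : ℕ → Prop} {be ta hi o : ℕ → ℕ → Prop}
    (h : IS tl T G be ta hi) (hT : ComputablePred T) (hG : ComputablePred G)
    (hbe : CR be) (hta : CR ta) (ho : CR o)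
    (o_total : ∀ x z, G x → G z → x ≠ z → o x z ∨ o z x)
    (o_mon : ∀ x z, G x → G z → o x z → Mon T be hi x z) :
    ∃ c : ℕ → ℕ, Computable c ∧ (∀ x, G x → c x < 22) ∧
      ∀ N z z', G z → G z' → z ≤ N → z' ≤ N → Bad tl T be ta hi N z z' → c z ≠ c z' := by
  -- founders
  have hC : CR (fun x y => ¬ ∃ t, t < x ∧ T t ∧ ta t x ∧ ta t y) := by
    refine cp_not ?_
    refine cp_ex_lt (α := ℕ × ℕ) (p := fun p t => T t ∧ ta t p.1 ∧ ta t p.2) ?_ Computable.fst
    refine cp_and (cp_comp hT Computable.snd) (cp_and ?_ ?_)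
    · exact cp_comp (p := fun p : ℕ × ℕ => ta p.1 p.2) hta
        (f := fun x : (ℕ × ℕ) × ℕ => (x.2, x.1.1)) (by fun_prop)
    · exact cp_comp (p := fun p : ℕ × ℕ => ta p.1 p.2) hta
        (f := fun x : (ℕ × ℕ) × ℕ => (x.2, x.1.2)) (by fun_prop)
  obtain ⟨F, hFc, hF⟩ := greedy hG hC
  have FG : ∀ x, F x → G x := fun x hx => ((hF x).1 hx).1
  -- selector
  have hsel : ∀ x : ℕ, ∃ b : ℕ × ℕ, (¬ G x) ∨ (F b.1 ∧ b.1 ≤ x ∧ b.2 < x ∧ T b.2 ∧ ta b.2 x ∧ ta b.2 b.1) := by
    intro x
    by_cases hGx : G x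
    · by_cases hFx : F x
      · obtain ⟨t, h1, h2, h3⟩ := h.wit x hGx
        exact ⟨(x, t), Or.inr ⟨hFx, le_rfl, h1, h2, h3, h3⟩⟩
      · have h1 := mt (hF x).2 hFx
        push Not at h1
        obtain ⟨y, hy, hFy, t, h2, h3, h4, h5⟩ := h1 hGx
        exact ⟨(y, t), Or.inr ⟨hFy, hy.le, h2, h3, h4, h5⟩⟩
    · exact ⟨(0, 0), Or.inl hGx⟩
  have hselc : REPred fun x : ℕ × (ℕ × ℕ) =>
      (¬ G x.1) ∨ (F x.2.1 ∧ x.2.1 ≤ x.1 ∧ x.2.2 < x.1 ∧ T x.2.2 ∧ ta x.2.2 x.1 ∧ ta x.2.2 x.2.1) := by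
    refine ComputablePred.to_re ?_
    refine cp_or (cp_not (cp_comp hG Computable.fst)) ?_
    refine cp_and (cp_comp hFc (f := fun x : ℕ × (ℕ × ℕ) => x.2.1) (by fun_prop)) ?_
    refine cp_and (cp_le (by fun_prop) (by fun_prop)) ?_
    refine cp_and (cp_lt (by fun_prop) (by fun_prop)) ?_
    refine cp_and (cp_comp hT (f := fun x : ℕ × (ℕ × ℕ) => x.2.2) (by fun_prop)) ?_
    refine cp_and ?_ ?_
    · exact cp_comp (p := fun p : ℕ × ℕ => ta p.1 p.2) hta
        (f := fun x : ℕ × (ℕ × ℕ) => (x.2.2, x.1)) (by fun_prop)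
    · exact cp_comp (p := fun p : ℕ × ℕ => ta p.1 p.2) hta
        (f := fun x : ℕ × (ℕ × ℕ) => (x.2.2, x.2.1)) (by fun_prop)
  obtain ⟨f, hfc, hf⟩ := exists_selector (r := fun (x : ℕ) (b : ℕ × ℕ) =>
    (¬ G x) ∨ (F b.1 ∧ b.1 ≤ x ∧ b.2 < x ∧ T b.2 ∧ ta b.2 x ∧ ta b.2 b.1)) hselc hsel
  have hf' : ∀ x, G x → F (f x).1 ∧ (f x).1 ≤ x ∧ (f x).2 < x ∧ T (f x).2 ∧ ta (f x).2 x ∧ ta (f x).2 (f x).1 :=
    fun x hx => (hf x).resolve_left (fun h => h hx)
  -- the order on founders
  have hpr : CR (D0 T be ta) := by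
    refine (cp_all_lt (α := ℕ × ℕ) (p := fun p t => T t → ta t p.1 → be t p.2)
      (cp_imp (cp_comp hT Computable.snd) (cp_imp ?_ ?_)) (f := fun p => max p.1 p.2) (by fun_prop)).of_eq ?_
    · exact cp_comp (p := fun p : ℕ × ℕ => ta p.1 p.2) hta
        (f := fun x : (ℕ × ℕ) × ℕ => (x.2, x.1.1)) (by fun_prop)
    · exact cp_comp (p := fun p : ℕ × ℕ => be p.1 p.2) hbe
        (f := fun x : (ℕ × ℕ) × ℕ => (x.2, x.1.2)) (by fun_prop)
    · intro p
      constructor
      · intro h1 t h2 h3 h4; exact h1 t h3 h2 h4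
      · intro h1 t h3 h2 h4; exact h1 t h2 h3 h4
  have irr : ∀ x, G x → ¬ D0 T be ta x x := by
    intro x hx hd
    obtain ⟨t, h1, h2, h3⟩ := h.wit x hx
    exact h.be_ta t x h2 hx (hd t h2 (lt_of_lt_of_le h1 (le_max_left _ _)) h3) h3
  have tot : ∀ x y, F x → F y → x ≠ y → D0 T be ta x y ∨ D0 T be ta y x := by
    intro x y hx hy hne
    rcases h.d0_total (FG x hx) (FG y hy) with h1 | h1 | ⟨t, h1, h2, h3, h4⟩
    · exact Or.inl h1
    · exact Or.inr h1
    · exfalso
      rcases lt_or_gt_of_ne hne with h5 | h5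
      · have := ((hF y).1 hy).2 x h5 hx
        exact this ⟨t, by rwa [max_eq_right h5.le] at h2, h1, h4, h3⟩
      · have := ((hF x).1 hx).2 y h5 hy
        exact this ⟨t, by rwa [max_eq_left h5.le] at h2, h1, h3, h4⟩
  have trn : ∀ x y w, F x → F y → F w → D0 T be ta x y → D0 T be ta y w → D0 T be ta x w := by
    intro x y w hx hy hw h1 h2
    obtain ⟨t, k1, k2, k3⟩ := h.wit x (FG x hx)
    have hbe1 : be t y := h1 t k2 (lt_of_lt_of_le k1 (le_max_left _ _)) k3
    have hbe2 : be t w := (h.d0_mon (FG y hy) (FG w hw) h2).1 t k2 hbe1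
    have hne : x ≠ w := by
      rintro rfl
      exact h.be_ta t _ k2 (FG _ hx) hbe2 k3
    rcases tot x w hx hw hne with h3 | h3
    · exact h3
    · exfalso
      exact h.be_ta t x k2 (FG x hx) ((h.d0_mon (FG w hw) (FG x hx) h3).1 t k2 hbe2) k3
  obtain ⟨col, hcolc, hcol11, hcol⟩ := dyn_colour hFc hpr (fun x hx => irr x (FG x hx)) trn tot
  obtain ⟨ob, hobc, hob⟩ := ComputablePred.computable_iff.1 ho
  have hob' : ∀ x y, o x y ↔ ob (x, y) = true := fun x y => by
    have := congrFun hob (x, y)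
    simp only at this
    rw [this]
  have hφ : Computable fun x => (f x).1 := Computable.fst.comp hfc
  refine ⟨fun x => 2 * col (f x).1 + (bif ob (x, (f x).1) then 1 else 0), ?_, ?_, ?_⟩
  · have h1 : Computable fun x => col (f x).1 := hcolc.comp hφ
    have h2 : Computable fun x => ob (x, (f x).1) := hobc.comp (Computable.id.pair hφ)
    have h3 : Computable fun x => (bif ob (x, (f x).1) then 1 else 0 : ℕ) :=
      Computable.cond h2 (Computable.const 1) (Computable.const 0)
    exact cadd (cmul (Computable.const 2) h1) h3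
  · intro x hx
    have h1 := hcol11 _ (hf' x hx).1
    simp only
    cases ob (x, (f x).1) <;> simp <;> omega
  · intro N z z' hz hz' hzN hzN' hbad heq
    obtain ⟨u, v, Tu, Tv, huv, tauz, hivz, beuz', tavz', hall⟩ := hbad
    obtain ⟨Fy, yz, pz, Tp, tapz, tapy⟩ := hf' z hz
    obtain ⟨Fy', yz', pz', Tp', tapz', tapy'⟩ := hf' z' hz'
    set y := (f z).1 with hy
    set y' := (f z').1 with hy'
    set p := (f z).2 with hp
    set p' := (f z').2 with hp'
    have Gy := FG _ Fy
    have Gy' := FG _ Fy'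
    have hcc : col y = col y' ∧ (o z y ↔ o z' y') := by
      simp only at heq
      rw [← hy, ← hy'] at heq
      rw [hob', hob']
      cases h1 : ob (z, y) <;> cases h2 : ob (z', y') <;> rw [h1, h2] at heq <;> simp at heq ⊢ <;> omega
    have hA : p = u ∨ tl p u := by
      rcases hall p Tp (by omega) with h1 | h1
      · exact h1
      · exfalso
        rcases h1 with h1 | h1
        · rw [h1] at tapz; exact h.ta_hi v z Tv hz tapz hivz
        · exact h.ta_hi p z Tp hz tapz (h.hi_mono v p z Tv Tp hz h1 hivz)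
    have hB : p' = v ∨ tl v p' := by
      rcases hall p' Tp' (by omega) with h1 | h1
      · exfalso
        rcases h1 with h1 | h1
        · rw [h1] at tapz'; exact h.be_ta u z' Tu hz' beuz' tapz'
        · exact h.be_ta p' z' Tp' hz' (h.be_mono p' u z' Tp' Tu hz' h1 beuz') tapz'
      · exact h1
    have hB' : v = p' ∨ tl v p' := hB.imp Eq.symm id
    have hpv : tl p v := by
      rcases hA with h1 | h1
      · rw [h1]; exact huv
      · exact h.tl_trans _ _ _ h1 huv
    have hup' : tl u p' := by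
      rcases hB with h1 | h1
      · rw [h1]; exact huv
      · exact h.tl_trans _ _ _ huv h1
    by_cases hyy : y = y'
    · rw [← hyy] at tapy' hcc
      have tauy : ta u y := ta_conv h Tp Tu Tp' Gy hA (Or.inr hup') tapy tapy'
      have tavy : ta v y := ta_conv h Tp Tv Tp' Gy (Or.inr hpv) hB' tapy tapy'
      have n1 : z ≠ y := fun h1 => h.ta_hi v y Tv Gy tavy (h1 ▸ hivz)
      have n2 : ¬ o y z := fun h1 => h.ta_hi v y Tv Gy tavy ((o_mon y z Gy hz h1).2 v Tv hivz)
      have n3 : o z y := (o_total z y hz Gy n1).resolve_right n2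
      have n4 : ¬ o z' y := fun h1 => h.be_ta u y Tu Gy ((o_mon z' y hz' Gy h1).1 u Tu beuz') tauy
      exact n4 (hcc.2.1 n3)
    · refine hcol y y' Fy Fy' hyy ?_ hcc.1
      intro E hE
      have hmaxN : max y y' ≤ N := by
        refine max_le ?_ ?_ <;> omega
      rcases tot y y' Fy Fy' hyy with hd | hd
      · -- D0 y y'
        have hE1 : ∀ e ∈ E, F e ∧ ((∃ t, t < e ∧ T t ∧ ta t e ∧ ta t z) ∨ (∃ t, t < e ∧ T t ∧ ta t e ∧ ta t z')) := by
          intro e he
          obtain ⟨Fe, elt, hor⟩ := hE e he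
          refine ⟨Fe, ?_⟩
          have hdir : D0 T be ta y e ∧ D0 T be ta e y' := by
            rcases hor with h1 | h1
            · exact h1
            · exfalso
              have h2 := trn y' e y Fy' Fe Fy h1.1 h1.2
              exact irr y Gy (trn y y' y Fy Fy' Fy hd h2)
          obtain ⟨t, k1, k2, k3⟩ := h.wit e (FG e Fe)
          have hhi : hi t y := h.d0_hi Gy (FG e Fe) hdir.1 k2 (lt_of_lt_of_le k1 (le_max_right _ _)) k3
          have hbe' : be t y' := hdir.2 t k2 (lt_of_lt_of_le k1 (le_max_left _ _)) k3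
          have hpt : tl p t := by
            have hne : p ≠ t := by
              intro h1; rw [← h1] at hhi; exact h.ta_hi p y Tp Gy tapy hhi
            rcases h.tl_total p t Tp k2 hne with h1 | h1
            · exact h1
            · exact absurd (h.hi_mono t p y k2 Tp Gy h1 hhi) (h.ta_hi p y Tp Gy tapy)
          have htp' : tl t p' := by
            have hne : t ≠ p' := by
              intro h1; rw [h1] at hbe'; exact h.be_ta p' y' Tp' Gy' hbe' tapy'
            rcases h.tl_total t p' k2 Tp' hne with h1 | h1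
            · exact h1
            · exact absurd tapy' (h.be_ta p' y' Tp' Gy' (h.be_mono p' t y' Tp' k2 Gy' h1 hbe'))
          rcases hall t k2 (by omega) with h1 | h1
          · left
            exact ⟨t, k1, k2, k3, ta_conv h Tp k2 Tu hz (Or.inr hpt) h1 tapz tauz⟩
          · right
            exact ⟨t, k1, k2, k3, ta_conv h Tv k2 Tp' hz' (h1.imp Eq.symm id) (Or.inr htp') tavz' tapz'⟩
        classical
        have hsub : E ⊆ E.filter (fun e => ∃ t, t < e ∧ T t ∧ ta t e ∧ ta t z) ∪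
            E.filter (fun e => ∃ t, t < e ∧ T t ∧ ta t e ∧ ta t z') := by
          intro e he
          rw [Finset.mem_union, Finset.mem_filter, Finset.mem_filter]
          rcases (hE1 e he).2 with h1 | h1
          · exact Or.inl ⟨he, h1⟩
          · exact Or.inr ⟨he, h1⟩
        have c1 : (E.filter (fun e => ∃ t, t < e ∧ T t ∧ ta t e ∧ ta t z)).card ≤ 2 := by
          refine card_le_two h o_total o_mon hz _ ?_ ?_ ?_
          · intro e he; exact FG e (hE1 e (Finset.mem_filter.1 he).1).1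
          · intro e he; exact (Finset.mem_filter.1 he).2
          · intro a ha b hb hab
            exact tot a b (hE1 a (Finset.mem_filter.1 ha).1).1 (hE1 b (Finset.mem_filter.1 hb).1).1 hab
        have c2 : (E.filter (fun e => ∃ t, t < e ∧ T t ∧ ta t e ∧ ta t z')).card ≤ 2 := by
          refine card_le_two h o_total o_mon hz' _ ?_ ?_ ?_
          · intro e he; exact FG e (hE1 e (Finset.mem_filter.1 he).1).1
          · intro e he; exact (Finset.mem_filter.1 he).2
          · intro a ha b hb hab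
            exact tot a b (hE1 a (Finset.mem_filter.1 ha).1).1 (hE1 b (Finset.mem_filter.1 hb).1).1 hab
        calc E.card ≤ _ := Finset.card_le_card hsub
          _ ≤ _ := Finset.card_union_le _ _
          _ ≤ 4 := by omega
      · -- D0 y' y
        have hemp : E = ∅ := by
          rw [Finset.eq_empty_iff_forall_notMem]
          intro e he
          obtain ⟨Fe, elt, hor⟩ := hE e he
          have hdir : D0 T be ta y' e ∧ D0 T be ta e y := by
            rcases hor with h1 | h1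
            · exfalso
              have h2 := trn y e y' Fy Fe Fy' h1.1 h1.2
              exact irr y' Gy' (trn y' y y' Fy' Fy Fy' hd h2)
            · exact h1
          obtain ⟨t, k1, k2, k3⟩ := h.wit e (FG e Fe)
          have hhi : hi t y' := h.d0_hi Gy' (FG e Fe) hdir.1 k2 (lt_of_lt_of_le k1 (le_max_right _ _)) k3
          have hbe' : be t y := hdir.2 t k2 (lt_of_lt_of_le k1 (le_max_left _ _)) k3
          have hpt : tl p' t := by
            have hne : p' ≠ t := by
              intro h1; rw [← h1] at hhi; exact h.ta_hi p' y' Tp' Gy' tapy' hhi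
            rcases h.tl_total p' t Tp' k2 hne with h1 | h1
            · exact h1
            · exact absurd (h.hi_mono t p' y' k2 Tp' Gy' h1 hhi) (h.ta_hi p' y' Tp' Gy' tapy')
          have htp' : tl t p := by
            have hne : t ≠ p := by
              intro h1; rw [h1] at hbe'; exact h.be_ta p y Tp Gy hbe' tapy
            rcases h.tl_total t p k2 Tp hne with h1 | h1
            · exact h1
            · exact absurd tapy (h.be_ta p y Tp Gy (h.be_mono p t y Tp k2 Gy h1 hbe'))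
          have hpp : tl p p' := by
            rcases hA with h1 | h1
            · rw [h1]; exact hup'
            · exact h.tl_trans _ _ _ h1 hup'
          exact h.tl_irrefl p (h.tl_trans _ _ _ hpp (h.tl_trans _ _ _ hpt htp'))
        rw [hemp]; simp

end Pool.Agent.Helper806.RD
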