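import Pool.Agent.Helper806.RD.Defs
import Pool.Agent.Helper806.RD.SRec

set_option autoImplicit false

namespace Pool.Agent.Helper806.RD

open Pool.Agent.Helper806.RE

theorem sb_comp : Computable (fun l : List ℕ => l.sublists') := by
  have h : Primrec fun l : List ℕ =>
      l.foldr (fun a acc => acc ++ acc.map (List.cons a)) ([[]] : List (List ℕ)) := by
    refine Primrec.list_foldr (f := fun l : List ℕ => l)
      (g := fun _ : List ℕ => ([[]] : List (List ℕ)))
      (h := fun (_ : List ℕ) (x : ℕ × List (List ℕ)) => x.2 ++ x.2.map (List.cons x.1))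
      Primrec.id (Primrec.const _) ?_
    have h1 : Primrec fun x : List ℕ × ℕ × List (List ℕ) => x.2.2 :=
      Primrec.snd.comp Primrec.snd
    have h2 : Primrec fun x : List ℕ × ℕ × List (List ℕ) => x.2.2.map (List.cons x.2.1) := by
      refine Primrec.list_map h1 ?_
      exact Primrec.list_cons.comp
        (Primrec.fst.comp (Primrec.snd.comp Primrec.fst)) Primrec.snd
    exact Primrec.list_append.comp h1 h2
  refine h.to_comp.of_eq fun l => ?_
  induction l with
  | nil => simp
  | cons a l ih => rw [List.sublists'_cons, ← ih]; rfl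

/-- `l` is a `q`-element antichain incomparable to `n` -/
def Good (q : ℕ) (lt : ℕ → ℕ → Prop) (l : List ℕ) (n : ℕ) : Prop :=
  l.length = q ∧ (∀ a ∈ l, ∀ b ∈ l, ¬ lt a b) ∧ ∀ a ∈ l, ¬ lt a n ∧ ¬ lt n a

theorem good_cp (q : ℕ) {lt : ℕ → ℕ → Prop} (hlt : CR lt) {α : Type} [Primcodable α]
    {f : α → List ℕ} {g : α → ℕ} (hf : Computable f) (hg : Computable g) :
    ComputablePred fun x => Good q lt (f x) (g x) := by
  refine cp_and (cp_eq (by fun_prop) (by fun_prop)) (cp_and ?_ ?_)
  · refine cp_all_mem (p := fun x a => ∀ b ∈ f x, ¬ lt a b) ?_ hf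
    refine cp_all_mem (p := fun (x : α × ℕ) b => ¬ lt x.2 b) ?_ (by fun_prop)
    exact cp_not (cp_comp hlt (f := fun x : (α × ℕ) × ℕ => (x.1.2, x.2)) (by fun_prop))
  · refine cp_all_mem (p := fun x a => ¬ lt a (g x) ∧ ¬ lt (g x) a) ?_ hf
    refine cp_and (cp_not ?_) (cp_not ?_)
    · exact cp_comp hlt (f := fun x : α × ℕ => (x.2, g x.1)) (by fun_prop)
    · exact cp_comp hlt (f := fun x : α × ℕ => (g x.1, x.2)) (by fun_prop)

theorem greedy_S (q : ℕ) {lt : ℕ → ℕ → Prop} {X : ℕ → Prop} (hlt : CR lt)
    (hX : ComputablePred X) (trans : ∀ x y z, lt x y → lt y z → lt x z)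
    (irrefl : ∀ x, ¬ lt x x) (hw : WidthLe lt X (q + 1)) :
    ∃ (S : ℕ → Prop) (A : ℕ → Finset ℕ), Base q lt X S A ∧ ComputablePred S ∧
      CR (fun t x => ∃ a ∈ A x, lt t a) ∧ CR (fun t x => ∃ a ∈ A x, lt a t) := by
  classical
  obtain ⟨f, hf, hfr⟩ := strong_rec_sel (β := ℕ)
    (r := fun n l c => c ≤ 1 ∧ (c = 1 ↔ (X n ∧ ¬ ∃ l' ∈ (List.range n).sublists',
      (∀ a ∈ l', l[a]? = some 1) ∧ Good q lt l' n))) (by
      apply ComputablePred.to_re
      refine cp_and (cp_le (by fun_prop) (by fun_prop)) (cp_iff (cp_eq (by fun_prop) (by fun_prop))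
        (cp_and (cp_comp hX (f := fun p : ℕ × List ℕ × ℕ => p.1) (by fun_prop)) (cp_not ?_)))
      refine cp_ex_mem (p := fun (p : ℕ × List ℕ × ℕ) l' => (∀ a ∈ l', p.2.1[a]? = some 1) ∧
        Good q lt l' p.1) ?_ ?_
      · refine cp_and ?_ (good_cp q hlt (by fun_prop) (by fun_prop))
        refine cp_all_mem (p := fun (x : (ℕ × List ℕ × ℕ) × List ℕ) a =>
          x.1.2.1[a]? = some 1) ?_ (by fun_prop)
        exact cp_eq (by fun_prop) (by fun_prop)
      · refine sb_comp.comp ?_
        exact (Primrec.list_range.to_comp).comp (by fun_prop))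
    (by
      intro n l
      by_cases h : X n ∧ ¬ ∃ l' ∈ (List.range n).sublists',
        (∀ a ∈ l', l[a]? = some 1) ∧ Good q lt l' n
      · exact ⟨1, le_rfl, ⟨fun _ => h, fun _ => rfl⟩⟩
      · exact ⟨0, by omega, ⟨fun h' => by omega, fun h' => absurd h' h⟩⟩)
  let S : ℕ → Prop := fun n => f n = 1
  have hS : ComputablePred S := cp_eq hf (by fun_prop)
  have hSn : ∀ n, S n ↔ X n ∧ ¬ ∃ l' ∈ (List.range n).sublists', (∀ a ∈ l', S a) ∧
      Good q lt l' n := by
    intro n
    rw [show S n ↔ _ from (hfr n).2]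
    refine and_congr Iff.rfl (not_congr ?_)
    refine exists_congr fun l' => and_congr_right fun hl' => and_congr ?_ Iff.rfl
    refine forall_congr' fun a => forall_congr' fun ha => ?_
    have han : a < n := by
      have := (List.mem_sublists'.1 hl').subset ha
      simpa using this
    simp [List.getElem?_map, List.getElem?_range han, S]
  -- selector
  obtain ⟨Al, hAl, hAlr⟩ := exists_selector (α := ℕ) (β := List ℕ)
    (r := fun x l' => X x ∧ ¬ S x → l' ∈ (List.range x).sublists' ∧ (∀ a ∈ l', S a) ∧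
      Good q lt l' x) (by
      apply ComputablePred.to_re
      refine cp_imp (cp_and (cp_comp hX (f := fun p : ℕ × List ℕ => p.1) (by fun_prop))
        (cp_not (cp_comp hS (f := fun p : ℕ × List ℕ => p.1) (by fun_prop)))) ?_
      refine cp_and (cp_mem (by fun_prop) ?_) (cp_and ?_
        (good_cp q hlt (by fun_prop) (by fun_prop)))
      · exact sb_comp.comp ((Primrec.list_range.to_comp).comp (by fun_prop))
      · refine cp_all_mem (p := fun (x : ℕ × List ℕ) a => S a) ?_ (by fun_prop)
        exact cp_comp hS (f := fun x : (ℕ × List ℕ) × ℕ => x.2) (by fun_prop))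
    (by
      intro x
      by_cases h : X x ∧ ¬ S x
      · have h2 := h.2
        rw [hSn x] at h2
        push Not at h2
        obtain ⟨l', h3, h4, h5⟩ := h2 h.1
        exact ⟨l', fun _ => ⟨h3, h4, h5⟩⟩
      · exact ⟨[], fun h' => absurd h' h⟩)
  refine ⟨S, fun x => (Al x).toFinset, ?_, hS, ?_, ?_⟩
  · constructor
    · exact trans
    · exact irrefl
    · exact hw
    · -- width of S
      intro F hF ha
      by_contra hcon
      push Not at hcon
      obtain ⟨F', hF', hc'⟩ := Finset.exists_subset_card_eq (Nat.succ_le_of_lt hcon)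
      have hne : F'.Nonempty := by
        rw [← Finset.card_pos, hc']; omega
      let n := F'.max' hne
      have hn : n ∈ F' := F'.max'_mem hne
      have hSn' := (hSn n).1 (hF n (hF' hn))
      apply hSn'.2
      refine ⟨(List.range n).filter (· ∈ F'.erase n), ?_, ?_, ?_, ?_, ?_⟩
      · rw [List.mem_sublists']; exact List.filter_sublist
      · intro a ha'
        simp only [List.mem_filter, decide_eq_true_eq] at ha'
        exact hF a (hF' (Finset.mem_of_mem_erase ha'.2))
      · have h1 : ((List.range n).filter (· ∈ F'.erase n)).toFinset = F'.erase n := by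
          ext a
          simp only [List.toFinset_filter, List.mem_toFinset, Finset.mem_filter, List.mem_range,
            decide_eq_true_eq]
          constructor
          · exact fun h => h.2
          · intro h
            refine ⟨?_, h⟩
            have h3 := Finset.mem_erase.1 h
            exact lt_of_le_of_ne (F'.le_max' a h3.2) h3.1
        have h2 : ((List.range n).filter (· ∈ F'.erase n)).Nodup :=
          (List.nodup_range).filter _
        rw [← List.toFinset_card_of_nodup h2, h1, Finset.card_erase_of_mem hn, hc']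
        omega
      · intro a ha' b hb'
        simp only [List.mem_filter, decide_eq_true_eq] at ha' hb'
        exact ha a (hF' (Finset.mem_of_mem_erase ha'.2)) b (hF' (Finset.mem_of_mem_erase hb'.2))
      · intro a ha'
        simp only [List.mem_filter, decide_eq_true_eq] at ha'
        exact ⟨ha a (hF' (Finset.mem_of_mem_erase ha'.2)) n (hF' hn),
          ha n (hF' hn) a (hF' (Finset.mem_of_mem_erase ha'.2))⟩
    · intro x hx
      exact ((hSn x).1 hx).1
    · intro x hx hxS a ha
      exact (hAlr x ⟨hx, hxS⟩).2.1 a (List.mem_toFinset.1 ha)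
    · intro x hx hxS
      obtain ⟨h1, -, h2, -⟩ := hAlr x ⟨hx, hxS⟩
      rw [List.toFinset_card_of_nodup, h2]
      exact (List.mem_sublists'.1 h1).nodup List.nodup_range
    · intro x hx hxS a ha b hb
      obtain ⟨-, -, -, h2, -⟩ := hAlr x ⟨hx, hxS⟩
      exact h2 a (List.mem_toFinset.1 ha) b (List.mem_toFinset.1 hb)
    · intro x hx hxS a ha
      obtain ⟨-, -, -, -, h2⟩ := hAlr x ⟨hx, hxS⟩
      exact h2 a (List.mem_toFinset.1 ha)
  · have h : ComputablePred fun p : ℕ × ℕ => ∃ a ∈ Al p.2, lt p.1 a := by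
      refine cp_ex_mem (p := fun (p : ℕ × ℕ) a => lt p.1 a) ?_ (hAl.comp (by fun_prop))
      exact cp_comp hlt (f := fun x : (ℕ × ℕ) × ℕ => (x.1.1, x.2)) (by fun_prop)
    refine h.of_eq fun p => ?_
    simp [List.mem_toFinset]
  · have h : ComputablePred fun p : ℕ × ℕ => ∃ a ∈ Al p.2, lt a p.1 := by
      refine cp_ex_mem (p := fun (p : ℕ × ℕ) a => lt a p.1) ?_ (hAl.comp (by fun_prop))
      exact cp_comp hlt (f := fun x : (ℕ × ℕ) × ℕ => (x.2, x.1.1)) (by fun_prop)
    refine h.of_eq fun p => ?_
    simp [List.mem_toFinset]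

end Pool.Agent.Helper806.RD
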