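import Pool.Agent.Helper806.RD.Defs
import Pool.Agent.Helper806.RD.CP

set_option autoImplicit false

namespace Pool.Agent.Helper806.RD

open Pool.Agent.Helper806.RE

theorem HasCover.mono {lt : ℕ → ℕ → Prop} {X Y : ℕ → Prop} {k m : ℕ}
    (h : HasCover lt X k) (hYX : ∀ x, Y x → X x) (hkm : k ≤ m) : HasCover lt Y m := by
  obtain ⟨c, hc, h1, h2⟩ := h
  exact ⟨c, hc, fun x hx => (h1 x (hYX x hx)).trans_le hkm,
    fun x y hx hy => h2 x y (hYX x hx) (hYX y hy)⟩

theorem HasCover.flip {lt : ℕ → ℕ → Prop} {X : ℕ → Prop} {k : ℕ}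
    (h : HasCover (fun x y => lt y x) X k) : HasCover lt X k := by
  obtain ⟨c, hc, h1, h2⟩ := h
  exact ⟨c, hc, h1, fun x y hx hy h3 h4 => (h2 x y hx hy h3 h4).symm⟩

/-- gluing finitely many computable functions -/
theorem glue_fun {d : ℕ → ℕ} (hd : Computable d) (k : ℕ) (g : ℕ → ℕ → ℕ)
    (hg : ∀ i < k, Computable (g i)) :
    ∃ f : ℕ → ℕ, Computable f ∧ ∀ x, d x < k → f x = g (d x) x := by
  induction k with
  | zero => exact ⟨fun _ => 0, Computable.const 0, fun x hx => absurd hx (Nat.not_lt_zero _)⟩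
  | succ k ih =>
    obtain ⟨f, hf, h⟩ := ih fun i hi => hg i (by omega)
    refine ⟨fun x => if d x = k then g k x else f x,
      cite (cp_eq hd (cconst k)) (hg k (by omega)) hf, fun x hx => ?_⟩
    by_cases h1 : d x = k
    · simp [h1]
    · simp only [h1, if_false]
      exact h x (by omega)

theorem HasCover.glue {lt : ℕ → ℕ → Prop} {X : ℕ → Prop} {k m : ℕ} {d : ℕ → ℕ}
    (hd : Computable d) (hk : ∀ x, X x → d x < k)
    (h : ∀ i < k, HasCover lt (fun x => X x ∧ d x = i) m) : HasCover lt X (k * m) := by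
  classical
  have h' : ∀ i, ∃ c : ℕ → ℕ, i < k → Computable c ∧ (∀ x, X x ∧ d x = i → c x < m) ∧
      ∀ x y, X x ∧ d x = i → X y ∧ d y = i → c x = c y → x ≠ y → lt x y ∨ lt y x := by
    intro i
    by_cases hi : i < k
    · obtain ⟨c, hc⟩ := h i hi
      exact ⟨c, fun _ => hc⟩
    · exact ⟨fun _ => 0, fun h => absurd h hi⟩
  choose g hg using h'
  obtain ⟨f, hf, hfg⟩ := glue_fun hd k g fun i hi => (hg i hi).1
  refine ⟨fun x => d x * m + f x, cadd (cmul hd (cconst m)) hf, ?_, ?_⟩
  · intro x hx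
    have h1 := hk x hx
    have h2 : f x < m := by
      rw [hfg x h1]; exact (hg _ h1).2.1 x ⟨hx, rfl⟩
    calc d x * m + f x < d x * m + m := by omega
      _ = (d x + 1) * m := by ring
      _ ≤ k * m := Nat.mul_le_mul_right _ h1
  · intro x y hx hy he hne
    have h1 := hk x hx
    have h1' := hk y hy
    have h2 : f x < m := by
      rw [hfg x h1]; exact (hg _ h1).2.1 x ⟨hx, rfl⟩
    have h2' : f y < m := by
      rw [hfg y h1']; exact (hg _ h1').2.1 y ⟨hy, rfl⟩
    have hm : 0 < m := by omega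
    have e1 : (d x * m + f x) / m = d x := by
      rw [mul_comm, Nat.mul_add_div hm, Nat.div_eq_of_lt h2, add_zero]
    have e2 : (d y * m + f y) / m = d y := by
      rw [mul_comm, Nat.mul_add_div hm, Nat.div_eq_of_lt h2', add_zero]
    have he' : d x * m + f x = d y * m + f y := he
    have e3 : d x = d y := by rw [← e1, ← e2, he']
    have e4 : f x = f y := by rw [e3] at he'; omega
    rw [hfg x h1, hfg y h1', ← e3] at e4
    exact (hg _ h1).2.2 x y ⟨hx, rfl⟩ ⟨hy, e3.symm⟩ e4 hne

theorem HasCover.union {lt : ℕ → ℕ → Prop} {X Y : ℕ → Prop} {k m : ℕ}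
    (hX : ComputablePred X) (h1 : HasCover lt X k) (h2 : HasCover lt (fun x => Y x ∧ ¬ X x) m) :
    HasCover lt (fun x => X x ∨ Y x) (k + m) := by
  classical
  obtain ⟨c, hc, c1, c2⟩ := h1
  obtain ⟨d, hd, d1, d2⟩ := h2
  refine ⟨fun x => if X x then c x else k + d x, cite hX hc (cadd (cconst k) hd), ?_, ?_⟩
  · intro x hx
    by_cases h : X x
    · simp only [h, if_true]; have := c1 x h; omega
    · simp only [h, if_false]
      have := d1 x ⟨hx.resolve_left h, h⟩; omega
  · intro x y hx hy he hne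
    by_cases h : X x <;> by_cases h' : X y
    · simp only [h, h', if_true] at he
      exact c2 x y h h' he hne
    · simp only [h, h', if_true, if_false] at he
      have := c1 x h; omega
    · simp only [h, h', if_true, if_false] at he
      have := c1 y h'; omega
    · simp only [h, h', if_false] at he
      exact d2 x y ⟨hx.resolve_left h, h⟩ ⟨hy.resolve_left h', h'⟩ (by omega) hne

end Pool.Agent.Helper806.RD
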