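import Pool.Agent.Helper806.RD.Defs
import Pool.Agent.Helper806.RD.SRec

set_option autoImplicit false


namespace Pool.Agent.Helper806.RD

open Pool.Agent.Helper806.RE


theorem linear_ext {E : ℕ → ℕ → ℕ → Prop}
    (hE : ComputablePred fun p : ℕ × ℕ × ℕ => E p.1 p.2.1 p.2.2)
    (irrefl : ∀ n x, ¬ E n x x)
    (trans : ∀ n x y z, x ≤ n → y ≤ n → z ≤ n → E n x y → E n y z → E n x z)
    (hered : ∀ m n x y, m ≤ n → x ≤ m → y ≤ m → E n x y → E m x y) :
    ∃ L : ℕ → ℕ → Prop, CR L ∧ (∀ x, ¬ L x x) ∧ (∀ x y z, L x y → L y z → L x z) ∧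
      (∀ x y, x ≠ y → L x y ∨ L y x) ∧ ∀ x y, E (max x y) x y → L x y := by
  classical
  let Lh : List (List ℕ) → ℕ → ℕ → Prop := fun H u p =>
    (u < p ∧ u ∈ (H[p]?).getD []) ∨ (p < u ∧ ¬ (p ∈ (H[u]?).getD []))
  let r : ℕ → List (List ℕ) → List ℕ → Prop := fun n H c =>
    (∀ u ∈ c, u < n) ∧ ∀ u < n, (u ∈ c ↔ ∃ p, p < n ∧ (E n p n ∧ (u = p ∨ Lh H u p)))
  have hgetD : Computable fun x : (List (List ℕ)) × ℕ => ((x.1)[x.2]?).getD [] :=
    Computable.option_getD (by fun_prop) (Computable.const [])
  have hr : REPred fun p : ℕ × List (List ℕ) × List ℕ => r p.1 p.2.1 p.2.2 := by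
    refine ComputablePred.to_re ?_
    refine cp_and ?_ ?_
    · refine cp_all_mem (p := fun (a : ℕ × List (List ℕ) × List ℕ) u => u < a.1) ?_ (by fun_prop)
      exact cp_lt (by fun_prop) (by fun_prop)
    · refine cp_all_lt (p := fun (a : ℕ × List (List ℕ) × List ℕ) u =>
        (u ∈ a.2.2 ↔ ∃ p, p < a.1 ∧ (E a.1 p a.1 ∧ (u = p ∨ Lh a.2.1 u p)))) ?_ (by fun_prop)
      refine cp_iff (cp_mem (by fun_prop) (by fun_prop)) ?_
      refine cp_ex_lt (p := fun (a : (ℕ × List (List ℕ) × List ℕ) × ℕ) p =>
        (E a.1.1 p a.1.1 ∧ (a.2 = p ∨ Lh a.1.2.1 a.2 p))) ?_ (by fun_prop)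
      refine cp_and ?_ (cp_or (cp_eq (by fun_prop) (by fun_prop)) (cp_or ?_ ?_))
      · exact cp_comp hE (f := fun x : ((ℕ × List (List ℕ) × List ℕ) × ℕ) × ℕ =>
          (x.1.1.1, x.2, x.1.1.1)) (by fun_prop)
      · refine cp_and (cp_lt (by fun_prop) (by fun_prop)) (cp_mem (by fun_prop) ?_)
        exact hgetD.comp (g := fun x : ((ℕ × List (List ℕ) × List ℕ) × ℕ) × ℕ =>
          (x.1.1.2.1, x.2)) (by fun_prop)
      · refine cp_and (cp_lt (by fun_prop) (by fun_prop)) (cp_not (cp_mem (by fun_prop) ?_))
        exact hgetD.comp (g := fun x : ((ℕ × List (List ℕ) × List ℕ) × ℕ) × ℕ =>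
          (x.1.1.2.1, x.1.2)) (by fun_prop)
  obtain ⟨D, hDc, hD⟩ := strong_rec_sel hr (by
    intro n H
    refine ⟨(List.range n).filter (fun u => ∃ p, p < n ∧ (E n p n ∧ (u = p ∨ Lh H u p))), ?_, ?_⟩
    · intro u hu
      rw [List.mem_filter, List.mem_range] at hu
      exact hu.1
    · intro u hu
      rw [List.mem_filter, List.mem_range]
      simp only [hu, true_and, decide_eq_true_eq])
  obtain ⟨L, hL⟩ : ∃ L : ℕ → ℕ → Prop, ∀ u v, L u v ↔
      ((u < v ∧ u ∈ D v) ∨ (v < u ∧ ¬ (v ∈ D u))) := ⟨_, fun _ _ => Iff.rfl⟩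
  have hLh : ∀ n u p, u < n → p < n → (Lh ((List.range n).map D) u p ↔ L u p) := by
    intro n u p hu hp
    rw [hL]
    have e1 : ((List.range n).map D)[p]? = some (D p) := by
      simp [hp]
    have e2 : ((List.range n).map D)[u]? = some (D u) := by
      simp [hu]
    show ((u < p ∧ u ∈ (((List.range n).map D)[p]?).getD []) ∨
      (p < u ∧ ¬ (p ∈ (((List.range n).map D)[u]?).getD []))) ↔ _
    rw [e1, e2]
    rfl
  have hD2 : ∀ n u, u < n → (u ∈ D n ↔ ∃ p, p < n ∧ (E n p n ∧ (u = p ∨ L u p))) := by
    intro n u hu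
    rw [(hD n).2 u hu]
    constructor
    · rintro ⟨p, hp, h1, h2⟩
      exact ⟨p, hp, h1, h2.imp id (hLh n u p hu hp).1⟩
    · rintro ⟨p, hp, h1, h2⟩
      exact ⟨p, hp, h1, h2.imp id (hLh n u p hu hp).2⟩
  have hirr : ∀ x, ¬ L x x := by
    intro x hx
    rw [hL] at hx
    rcases hx with ⟨h, _⟩ | ⟨h, _⟩ <;> exact lt_irrefl _ h
  have htot : ∀ x y, x ≠ y → L x y ∨ L y x := by
    intro x y hxy
    rw [hL, hL]
    rcases lt_or_gt_of_ne hxy with h | h
    · by_cases h1 : x ∈ D y
      · exact Or.inl (Or.inl ⟨h, h1⟩)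
      · exact Or.inr (Or.inr ⟨h, h1⟩)
    · by_cases h1 : y ∈ D x
      · exact Or.inr (Or.inl ⟨h, h1⟩)
      · exact Or.inl (Or.inr ⟨h, h1⟩)
  have hasym : ∀ x y, L x y → ¬ L y x := by
    intro x y h1 h2
    rw [hL] at h1 h2
    rcases h1 with ⟨a1, a2⟩ | ⟨a1, a2⟩ <;> rcases h2 with ⟨b1, b2⟩ | ⟨b1, b2⟩
    · omega
    · exact b2 a2
    · exact a2 b2
    · omega
  have hup : ∀ N x, x < N → (L x N ↔ x ∈ D N) := by
    intro N x hx
    rw [hL]
    constructor
    · rintro (⟨_, h⟩ | ⟨h, _⟩)
      · exact h
      · omega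
    · intro h
      exact Or.inl ⟨hx, h⟩
  have hdn : ∀ N x, x < N → (L N x ↔ x ∉ D N) := by
    intro N x hx
    rw [hL]
    constructor
    · rintro (⟨h, _⟩ | ⟨_, h⟩)
      · omega
      · exact h
    · intro h
      exact Or.inr ⟨hx, h⟩
  have main : ∀ n, (∀ x y z, x ≤ n → y ≤ n → z ≤ n → L x y → L y z → L x z) ∧
      (∀ x y, x ≤ n → y ≤ n → E n x y → L x y) := by
    intro n
    induction n with
    | zero =>
      refine ⟨?_, ?_⟩
      · intro x y z hx hy hz h1 _
        have e1 : x = 0 := by omega
        have e2 : y = 0 := by omega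
        subst e1
        subst e2
        exact absurd h1 (hirr 0)
      · intro x y hx hy h1
        have e1 : x = 0 := by omega
        have e2 : y = 0 := by omega
        subst e1
        subst e2
        exact absurd h1 (irrefl 0 0)
    | succ n ih =>
      obtain ⟨ih1, ih2⟩ := ih
      have dc : ∀ u w, u < n + 1 → w < n + 1 → L w u → u ∈ D (n + 1) → w ∈ D (n + 1) := by
        intro u w hu hw hwu huD
        rw [hD2 _ _ hu] at huD
        rw [hD2 _ _ hw]
        obtain ⟨p, hp, hE1, hup'⟩ := huD
        refine ⟨p, hp, hE1, Or.inr ?_⟩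
        rcases hup' with rfl | hup'
        · exact hwu
        · exact ih1 w u p (by omega) (by omega) (by omega) hwu hup'
      refine ⟨?_, ?_⟩
      · intro x y z hx hy hz h1 h2
        rcases Nat.lt_or_ge x (n + 1) with hx' | hx'
        · rcases Nat.lt_or_ge y (n + 1) with hy' | hy'
          · rcases Nat.lt_or_ge z (n + 1) with hz' | hz'
            · exact ih1 x y z (by omega) (by omega) (by omega) h1 h2
            · have ez : z = n + 1 := by omega
              subst ez
              rw [hup _ _ hy'] at h2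
              rw [hup _ _ hx']
              exact dc y x hy' hx' h1 h2
          · have ey : y = n + 1 := by omega
            subst ey
            rw [hup _ _ hx'] at h1
            rcases Nat.lt_or_ge z (n + 1) with hz' | hz'
            · rw [hdn _ _ hz'] at h2
              have hxz : x ≠ z := by
                rintro rfl
                exact h2 h1
              rcases htot x z hxz with h3 | h3
              · exact h3
              · exact absurd (dc x z hx' hz' h3 h1) h2
            · have ez : z = n + 1 := by omega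
              subst ez
              exact absurd h2 (hirr _)
        · have ex : x = n + 1 := by omega
          subst ex
          rcases Nat.lt_or_ge y (n + 1) with hy' | hy'
          · rw [hdn _ _ hy'] at h1
            rcases Nat.lt_or_ge z (n + 1) with hz' | hz'
            · rw [hdn _ _ hz']
              intro h3
              exact h1 (dc z y hz' hy' h2 h3)
            · have ez : z = n + 1 := by omega
              subst ez
              rw [hup _ _ hy'] at h2
              exact absurd h2 h1
          · have ey : y = n + 1 := by omega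
            subst ey
            exact absurd h1 (hirr _)
      · intro x y hx hy hxy
        rcases Nat.lt_or_ge x (n + 1) with hx' | hx'
        · rcases Nat.lt_or_ge y (n + 1) with hy' | hy'
          · exact ih2 x y (by omega) (by omega)
              (hered n (n + 1) x y (by omega) (by omega) (by omega) hxy)
          · have ey : y = n + 1 := by omega
            subst ey
            rw [hup _ _ hx', hD2 _ _ hx']
            exact ⟨x, hx', hxy, Or.inl rfl⟩
        · have ex : x = n + 1 := by omega
          subst ex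
          rcases Nat.lt_or_ge y (n + 1) with hy' | hy'
          · rw [hdn _ _ hy']
            intro h3
            rw [hD2 _ _ hy'] at h3
            obtain ⟨p, hp, hE1, h4⟩ := h3
            have h5 := trans (n + 1) p (n + 1) y (by omega) (by omega) (by omega) hE1 hxy
            have h6 := ih2 p y (by omega) (by omega)
              (hered n (n + 1) p y (by omega) (by omega) (by omega) h5)
            rcases h4 with rfl | h4
            · exact hirr _ h6
            · exact hasym _ _ h4 h6
          · have ey : y = n + 1 := by omega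
            subst ey
            exact absurd hxy (irrefl _ _)
  refine ⟨L, ?_, hirr, ?_, htot, ?_⟩
  · have hc : ComputablePred fun p : ℕ × ℕ =>
        ((p.1 < p.2 ∧ p.1 ∈ D p.2) ∨ (p.2 < p.1 ∧ ¬ (p.2 ∈ D p.1))) := by
      refine cp_or (cp_and (cp_lt (by fun_prop) (by fun_prop)) (cp_mem (by fun_prop) ?_))
        (cp_and (cp_lt (by fun_prop) (by fun_prop)) (cp_not (cp_mem (by fun_prop) ?_)))
      · exact hDc.comp Computable.snd
      · exact hDc.comp Computable.fst
    exact hc.of_eq (fun p => (hL p.1 p.2).symm)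
  · intro x y z h1 h2
    exact (main (max x (max y z))).1 x y z (by omega) (by omega) (by omega) h1 h2
  · intro x y h
    exact (main (max x y)).2 x y (by omega) (by omega) h

end Pool.Agent.Helper806.RD
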