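import Pool.Agent.Helper806.RD.Defs

set_option autoImplicit false


namespace Pool.Agent.Helper806.RD


theorem min_set {q : ℕ} {lt : ℕ → ℕ → Prop} {S : ℕ → Prop}
    (trans : ∀ x y z, lt x y → lt y z → lt x z) (irrefl : ∀ x, ¬ lt x x)
    (wS : WidthLe lt S q) {A₁ A₂ : Finset ℕ}
    (h₁ : ∀ a ∈ A₁, S a) (h₂ : ∀ a ∈ A₂, S a) (c₁ : A₁.card = q) (c₂ : A₂.card = q)
    (a₁ : ∀ a ∈ A₁, ∀ b ∈ A₁, ¬ lt a b) (a₂ : ∀ a ∈ A₂, ∀ b ∈ A₂, ¬ lt a b) :
    ∃ M : Finset ℕ, M ⊆ A₁ ∪ A₂ ∧ M.card = q ∧ (∀ m ∈ M, ∀ a ∈ A₁ ∪ A₂, ¬ lt a m) ∧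
      (∀ m ∈ M, ∃ a ∈ A₁, m = a ∨ lt m a) ∧ (∀ m ∈ M, ∃ a ∈ A₂, m = a ∨ lt m a) := by
  classical
  set W := A₁ ∪ A₂ with hW
  set M := W.filter (fun m => ∀ a ∈ W, ¬ lt a m) with hM
  set M' := W.filter (fun m => ∀ a ∈ W, ¬ lt m a) with hM'
  have hWS : ∀ a ∈ W, S a := by
    intro a ha
    rcases Finset.mem_union.1 ha with h | h
    · exact h₁ a h
    · exact h₂ a h
  have hMc : M.card ≤ q := by
    apply wS M
    · intro x hx; exact hWS x (Finset.mem_filter.1 hx).1
    · intro x hx y hy
      exact (Finset.mem_filter.1 hy).2 x (Finset.mem_filter.1 hx).1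
  have hMc' : M'.card ≤ q := by
    apply wS M'
    · intro x hx; exact hWS x (Finset.mem_filter.1 hx).1
    · intro x hx y hy
      exact (Finset.mem_filter.1 hx).2 y (Finset.mem_filter.1 hy).1
  have hun : W ⊆ M ∪ M' := by
    intro m hm
    by_contra hc
    rw [Finset.mem_union, not_or] at hc
    obtain ⟨hc1, hc2⟩ := hc
    have e1 : ∃ b ∈ W, lt b m := by
      by_contra h
      push Not at h
      exact hc1 (Finset.mem_filter.2 ⟨hm, h⟩)
    have e2 : ∃ c ∈ W, lt m c := by
      by_contra h
      push Not at h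
      exact hc2 (Finset.mem_filter.2 ⟨hm, h⟩)
    obtain ⟨b, hb, hbm⟩ := e1
    obtain ⟨c, hc, hmc⟩ := e2
    have hbc := trans b m c hbm hmc
    rcases Finset.mem_union.1 hm with hm1 | hm2
    · rcases Finset.mem_union.1 hb with hb1 | hb2
      · exact a₁ b hb1 m hm1 hbm
      · rcases Finset.mem_union.1 hc with hc1 | hc2
        · exact a₁ m hm1 c hc1 hmc
        · exact a₂ b hb2 c hc2 hbc
    · rcases Finset.mem_union.1 hb with hb1 | hb2
      · rcases Finset.mem_union.1 hc with hc1 | hc2
        · exact a₁ b hb1 c hc1 hbc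
        · exact a₂ m hm2 c hc2 hmc
      · exact a₂ b hb2 m hm2 hbm
  have hint : A₁ ∩ A₂ ⊆ M ∩ M' := by
    intro m hm
    obtain ⟨m1, m2⟩ := Finset.mem_inter.1 hm
    have hmW : m ∈ W := Finset.mem_union.2 (Or.inl m1)
    refine Finset.mem_inter.2 ⟨Finset.mem_filter.2 ⟨hmW, ?_⟩, Finset.mem_filter.2 ⟨hmW, ?_⟩⟩
    · intro a ha
      rcases Finset.mem_union.1 ha with h | h
      · exact a₁ a h m m1
      · exact a₂ a h m m2
    · intro a ha
      rcases Finset.mem_union.1 ha with h | h
      · exact a₁ m m1 a h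
      · exact a₂ m m2 a h
  have k1 := Finset.card_union_add_card_inter M M'
  have k2 := Finset.card_union_add_card_inter A₁ A₂
  have k3 := Finset.card_le_card hun
  have k4 := Finset.card_le_card hint
  have hMq : M.card = q := by
    rw [← hW] at k2
    omega
  refine ⟨M, Finset.filter_subset _ _, hMq, ?_, ?_, ?_⟩
  · intro m hm a ha
    exact (Finset.mem_filter.1 hm).2 a ha
  · intro m hm
    by_contra hc
    push Not at hc
    have hmA : m ∉ A₁ := fun h => (hc m h).1 rfl
    have h := wS (insert m A₁) ?_ ?_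
    · rw [Finset.card_insert_of_notMem hmA] at h
      omega
    · intro x hx
      rcases Finset.mem_insert.1 hx with rfl | hx
      · exact hWS _ (Finset.mem_filter.1 hm).1
      · exact h₁ x hx
    · intro x hx y hy
      rcases Finset.mem_insert.1 hx with rfl | hx2
      · rcases Finset.mem_insert.1 hy with rfl | hy2
        · exact irrefl _
        · exact (hc y hy2).2
      · rcases Finset.mem_insert.1 hy with rfl | hy2
        · exact (Finset.mem_filter.1 hm).2 x (Finset.mem_union.2 (Or.inl hx2))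
        · exact a₁ x hx2 y hy2
  · intro m hm
    by_contra hc
    push Not at hc
    have hmA : m ∉ A₂ := fun h => (hc m h).1 rfl
    have h := wS (insert m A₂) ?_ ?_
    · rw [Finset.card_insert_of_notMem hmA] at h
      omega
    · intro x hx
      rcases Finset.mem_insert.1 hx with rfl | hx
      · exact hWS _ (Finset.mem_filter.1 hm).1
      · exact h₂ x hx
    · intro x hx y hy
      rcases Finset.mem_insert.1 hx with rfl | hx2
      · rcases Finset.mem_insert.1 hy with rfl | hy2
        · exact irrefl _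
        · exact (hc y hy2).2
      · rcases Finset.mem_insert.1 hy with rfl | hy2
        · exact (Finset.mem_filter.1 hm).2 x (Finset.mem_union.2 (Or.inr hx2))
        · exact a₂ x hx2 y hy2

theorem level_imp {q : ℕ} {lt : ℕ → ℕ → Prop} {X S : ℕ → Prop} {A : ℕ → Finset ℕ}
    (h : Base q lt X S A) {x y : ℕ} (hx : X x) (hx' : ¬ S x) (hy : X y) (hy' : ¬ S y)
    (hne : x ≠ y) (h1 : ¬ lt x y) (h2 : ¬ lt y x) :
    (∃ a ∈ A y, lt x a) → (∃ a ∈ A x, lt a y) := by
  classical
  rintro ⟨a0, ha0, hxa0⟩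
  by_contra hcon
  push Not at hcon
  have hAxS : ∀ a ∈ A x, S a := h.A_S x hx hx'
  have hAyS : ∀ a ∈ A y, S a := h.A_S y hy hy'
  -- y is comparable to some element of A x
  have hcomp : ∃ a1 ∈ A x, lt y a1 := by
    by_contra hc
    push Not at hc
    have hxA : x ∉ A x := fun h' => hx' (hAxS x h')
    have hyA : y ∉ insert x (A x) := by
      intro h'
      rcases Finset.mem_insert.1 h' with h' | h'
      · exact hne h'.symm
      · exact hy' (hAxS y h')
    have hk := h.wX (insert y (insert x (A x))) ?_ ?_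
    · rw [Finset.card_insert_of_notMem hyA, Finset.card_insert_of_notMem hxA,
        h.A_card x hx hx'] at hk
      omega
    · intro z hz
      rcases Finset.mem_insert.1 hz with rfl | hz
      · exact hy
      · rcases Finset.mem_insert.1 hz with rfl | hz
        · exact hx
        · exact h.SX z (hAxS z hz)
    · intro z hz w hw
      rcases Finset.mem_insert.1 hz with rfl | hz1
      · rcases Finset.mem_insert.1 hw with rfl | hw1
        · exact h.irrefl _
        · rcases Finset.mem_insert.1 hw1 with rfl | hw2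
          · exact h2
          · exact hc w hw2
      · rcases Finset.mem_insert.1 hz1 with rfl | hz2
        · rcases Finset.mem_insert.1 hw with rfl | hw1
          · exact h1
          · rcases Finset.mem_insert.1 hw1 with rfl | hw2
            · exact h.irrefl _
            · exact (h.A_inc _ hx hx' w hw2).2
        · rcases Finset.mem_insert.1 hw with rfl | hw1
          · exact hcon z hz2
          · rcases Finset.mem_insert.1 hw1 with rfl | hw2
            · exact (h.A_inc _ hx hx' z hz2).1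
            · exact h.A_anti x hx hx' z hz2 w hw2
  obtain ⟨a1, ha1, hya1⟩ := hcomp
  obtain ⟨M, hMs, hMc, -, hM1, hM2⟩ := min_set h.trans h.irrefl h.wS hAxS hAyS
    (h.A_card x hx hx') (h.A_card y hy hy') (h.A_anti x hx hx') (h.A_anti y hy hy')
  have hMx : ∀ m ∈ M, ¬ lt m x ∧ ¬ lt x m := by
    intro m hm
    refine ⟨?_, ?_⟩
    · intro hlt
      rcases Finset.mem_union.1 (hMs hm) with hm1 | hm2
      · exact (h.A_inc x hx hx' m hm1).1 hlt
      · exact h.A_anti y hy hy' m hm2 a0 ha0 (h.trans _ _ _ hlt hxa0)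
    · intro hlt
      obtain ⟨a, ha, hma⟩ := hM1 m hm
      rcases hma with rfl | hma
      · exact (h.A_inc x hx hx' m ha).2 hlt
      · exact (h.A_inc x hx hx' a ha).2 (h.trans _ _ _ hlt hma)
  have hMy : ∀ m ∈ M, ¬ lt m y ∧ ¬ lt y m := by
    intro m hm
    refine ⟨?_, ?_⟩
    · intro hlt
      rcases Finset.mem_union.1 (hMs hm) with hm1 | hm2
      · exact h.A_anti x hx hx' m hm1 a1 ha1 (h.trans _ _ _ hlt hya1)
      · exact (h.A_inc y hy hy' m hm2).1 hlt
    · intro hlt
      obtain ⟨a, ha, hma⟩ := hM2 m hm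
      rcases hma with rfl | hma
      · exact (h.A_inc y hy hy' m ha).2 hlt
      · exact (h.A_inc y hy hy' a ha).2 (h.trans _ _ _ hlt hma)
  have hMS : ∀ m ∈ M, S m := by
    intro m hm
    rcases Finset.mem_union.1 (hMs hm) with hm1 | hm2
    · exact hAxS m hm1
    · exact hAyS m hm2
  have hMM : ∀ a ∈ M, ∀ b ∈ M, ¬ lt a b := by
    intro a ha b hb hab
    rcases Finset.mem_union.1 (hMs ha) with ha' | ha'
    · obtain ⟨c, hc, hbc⟩ := hM1 b hb
      rcases hbc with rfl | hbc
      · exact h.A_anti x hx hx' a ha' b hc hab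
      · exact h.A_anti x hx hx' a ha' c hc (h.trans _ _ _ hab hbc)
    · obtain ⟨c, hc, hbc⟩ := hM2 b hb
      rcases hbc with rfl | hbc
      · exact h.A_anti y hy hy' a ha' b hc hab
      · exact h.A_anti y hy hy' a ha' c hc (h.trans _ _ _ hab hbc)
  have hyM : y ∉ M := fun h' => hy' (hMS y h')
  have hxM : x ∉ insert y M := by
    intro h'
    rcases Finset.mem_insert.1 h' with h' | h'
    · exact hne h'
    · exact hx' (hMS x h')
  have hk := h.wX (insert x (insert y M)) ?_ ?_
  · rw [Finset.card_insert_of_notMem hxM, Finset.card_insert_of_notMem hyM, hMc] at hk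
    omega
  · intro z hz
    rcases Finset.mem_insert.1 hz with rfl | hz
    · exact hx
    · rcases Finset.mem_insert.1 hz with rfl | hz
      · exact hy
      · exact h.SX z (hMS z hz)
  · intro z hz w hw
    rcases Finset.mem_insert.1 hz with rfl | hz1
    · rcases Finset.mem_insert.1 hw with rfl | hw1
      · exact h.irrefl _
      · rcases Finset.mem_insert.1 hw1 with rfl | hw2
        · exact h1
        · exact (hMx w hw2).2
    · rcases Finset.mem_insert.1 hz1 with rfl | hz2
      · rcases Finset.mem_insert.1 hw with rfl | hw1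
        · exact h2
        · rcases Finset.mem_insert.1 hw1 with rfl | hw2
          · exact h.irrefl _
          · exact (hMy w hw2).2
      · rcases Finset.mem_insert.1 hw with rfl | hw1
        · exact (hMx z hz2).1
        · rcases Finset.mem_insert.1 hw1 with rfl | hw2
          · exact (hMy z hz2).1
          · exact hMM z hz2 w hw2

theorem level_iff {q : ℕ} {lt : ℕ → ℕ → Prop} {X S : ℕ → Prop} {A : ℕ → Finset ℕ}
    (h : Base q lt X S A) {x y : ℕ} (hx : X x) (hx' : ¬ S x) (hy : X y) (hy' : ¬ S y)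
    (hne : x ≠ y) (h1 : ¬ lt x y) (h2 : ¬ lt y x) :
    (∃ a ∈ A y, lt x a) ↔ (∃ a ∈ A x, lt a y) := by
  refine ⟨level_imp h hx hx' hy hy' hne h1 h2, ?_⟩
  have h' : Base q (fun a b => lt b a) X S A := by
    refine ⟨?_, h.irrefl, ?_, ?_, h.SX, h.A_S, h.A_card, ?_, ?_⟩
    · intro a b c hab hbc
      exact h.trans _ _ _ hbc hab
    · intro F hF hF'
      exact h.wX F hF (fun a ha b hb => hF' b hb a ha)
    · intro F hF hF'
      exact h.wS F hF (fun a ha b hb => hF' b hb a ha)
    · intro z hz hz' a ha b hb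
      exact h.A_anti z hz hz' b hb a ha
    · intro z hz hz' a ha
      exact ⟨(h.A_inc z hz hz' a ha).2, (h.A_inc z hz hz' a ha).1⟩
  exact level_imp h' hy hy' hx hx' hne.symm h1 h2

end Pool.Agent.Helper806.RD
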