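import Pool.Agent.Helper806.RD.ConfIS
import Pool.Agent.Helper806.RD.Facts

set_option autoImplicit false


namespace Pool.Agent.Helper806.RD



theorem q_star {q : ℕ} {lt : ℕ → ℕ → Prop} {X S : ℕ → Prop} {A : ℕ → Finset ℕ}
    {T U : ℕ → Prop} (h : Conf q lt X S A T U) {v x z : ℕ} (hx : x < v) (hz : z < v)
    (h1 : Q lt A T U x v) (h2 : Q lt A T U v z) : Q lt A T U x z := by
  have I := conf_is h
  obtain ⟨hUx, hUv, -, h1⟩ := h1
  obtain ⟨-, hUz, -, h2⟩ := h2
  obtain ⟨tv, htv, hTtv, hlotv⟩ := I.wit v hUv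
  obtain ⟨tx, htx, hTtx, hlotx⟩ := I.wit x hUx
  have tr := h.toBase.trans
  have mx : max x z < v := max_lt hx hz
  -- key step
  have key : D0 T lt (lo lt A) v z → ∀ t, T t → lt t v → lt t z := by
    intro hd t ht hlt
    have hne : t ≠ tv := by
      rintro rfl
      exact I.be_ta t v ht hUv hlt hlotv
    have h3 : lt t tv := by
      rcases I.tl_total t tv ht hTtv hne with h4 | h4
      · exact h4
      · exact absurd hlotv (I.be_ta tv v hTtv hUv (tr _ _ _ h4 hlt))
    exact tr _ _ _ h3 (hd tv hTtv (lt_of_lt_of_le htv (le_max_left _ _)) hlotv)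
  have claim : lt x z ∨ D0 T lt (lo lt A) x z := by
    rcases h1 with h1 | h1
    · rcases h2 with h2 | h2
      · exact Or.inl (tr _ _ _ h1 h2)
      · right
        intro t ht htm hlo
        have hm := (conf_mon h hUx hUv h1).2
        have hnab : ¬ ab lt A t v := fun h5 => I.ta_hi t x ht hUx hlo (hm t ht h5)
        rcases I.tri t v ht hUv with h6 | h6 | h6
        · exact key h2 t ht h6
        · exact h2 t ht (lt_of_lt_of_le (lt_trans htm mx) (le_max_left _ _)) h6
        · exact absurd h6 hnab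
    · rcases h2 with h2 | h2
      · right
        intro t ht htm hlo
        exact tr _ _ _ (h1 t ht (lt_of_lt_of_le (lt_trans htm mx) (le_max_right _ _)) hlo) h2
      · right
        intro t ht htm hlo
        exact key h2 t ht (h1 t ht (lt_of_lt_of_le (lt_trans htm mx) (le_max_right _ _)) hlo)
  refine ⟨hUx, hUz, ?_, claim⟩
  rintro rfl
  rcases claim with hc | hc
  · exact h.toBase.irrefl x hc
  · exact I.be_ta tx x hTtx hUx (hc tx hTtx (lt_of_lt_of_le htx (le_max_left _ _)) hlotx) hlotx

end Pool.Agent.Helper806.RD
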