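import Pool.Agent.Helper806.RD.Defs
import Pool.Agent.Helper806.RD.SRec

set_option autoImplicit false


namespace Pool.Agent.Helper806.RD

open Pool.Agent.Helper806.RE


/-- the relation restricted to `[0, n]` -/
def TGRn (R : ℕ → ℕ → Prop) (n x y : ℕ) : Prop := R x y ∧ x ≤ n ∧ y ≤ n

theorem TGRn_mono {R : ℕ → ℕ → Prop} {m n : ℕ} (h : m ≤ n) {x z : ℕ}
    (hx : Relation.TransGen (TGRn R m) x z) : Relation.TransGen (TGRn R n) x z :=
  Relation.TransGen.mono (r := TGRn R m) (p := TGRn R n)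
    (fun _ _ hab => ⟨hab.1, hab.2.1.trans h, hab.2.2.trans h⟩) x z hx

theorem TGRn_exists {R : ℕ → ℕ → Prop} {x z : ℕ} (h : Relation.TransGen R x z) :
    ∃ n, Relation.TransGen (TGRn R n) x z := by
  induction h with
  | @single b hb => exact ⟨max x b, Relation.TransGen.single ⟨hb, le_max_left _ _, le_max_right _ _⟩⟩
  | @tail b c _ hbc ih =>
    obtain ⟨n, hn⟩ := ih
    refine ⟨max n (max b c), Relation.TransGen.tail (TGRn_mono (le_max_left _ _) hn) ⟨hbc, ?_, ?_⟩⟩
    · exact (le_max_left b c).trans (le_max_right _ _)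
    · exact (le_max_right b c).trans (le_max_right _ _)

theorem TGRn_step {R : ℕ → ℕ → Prop} (hirr : ∀ x, ¬ R x x)
    (hstar : ∀ v x z, x < v → z < v → R x v → R v z → R x z) {k x z : ℕ} (hx : x ≤ k) (hz : z ≤ k)
    (h : Relation.TransGen (TGRn R (k + 1)) x z) : Relation.TransGen (TGRn R k) x z := by
  have key : ∀ y, Relation.TransGen (TGRn R (k + 1)) x y →
      (y ≤ k → Relation.TransGen (TGRn R k) x y) ∧
      (y = k + 1 → ∃ w, w ≤ k ∧ R w (k + 1) ∧ (w = x ∨ Relation.TransGen (TGRn R k) x w)) := by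
    intro y hy
    induction hy with
    | @single b hb =>
      constructor
      · intro hbk
        exact Relation.TransGen.single ⟨hb.1, hx, hbk⟩
      · rintro rfl
        exact ⟨x, hx, hb.1, Or.inl rfl⟩
    | @tail b c _ hbc ih =>
      constructor
      · intro hck
        rcases Nat.lt_or_ge b (k + 1) with hb | hb
        · exact Relation.TransGen.tail (ih.1 (by omega)) ⟨hbc.1, by omega, hck⟩
        · have hbk : b = k + 1 := le_antisymm hbc.2.1 hb
          obtain ⟨w, hw, hwk, hwx⟩ := ih.2 hbk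
          subst hbk
          have hwc : R w c := hstar (k + 1) w c (by omega) (by omega) hwk hbc.1
          rcases hwx with rfl | hwx
          · exact Relation.TransGen.single ⟨hwc, hw, hck⟩
          · exact Relation.TransGen.tail hwx ⟨hwc, hw, hck⟩
      · rintro rfl
        have hbne : b ≠ k + 1 := by
          rintro rfl
          exact hirr _ hbc.1
        have hbk : b ≤ k := by
          have := hbc.2.1
          omega
        exact ⟨b, hbk, hbc.1, Or.inr (ih.1 hbk)⟩
  exact (key z h).1 hz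

theorem TGRn_max {R : ℕ → ℕ → Prop} (hirr : ∀ x, ¬ R x x)
    (hstar : ∀ v x z, x < v → z < v → R x v → R v z → R x z) {x z : ℕ}
    (h : Relation.TransGen R x z) : Relation.TransGen (TGRn R (max x z)) x z := by
  obtain ⟨n, hn⟩ := TGRn_exists h
  induction n with
  | zero => exact TGRn_mono (Nat.zero_le _) hn
  | succ k ih =>
    rcases Nat.lt_or_ge (max x z) (k + 1) with hk | hk
    · exact ih (TGRn_step hirr hstar (by omega) (by omega) hn)
    · exact TGRn_mono hk hn

/-- certificate for `TransGen R x z` -/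
theorem TG_cert {R : ℕ → ℕ → Prop} (x z : ℕ) : Relation.TransGen R x z ↔
    ∃ l : List ℕ, (∀ i < l.length, ∃ a, l[i]? = some a ∧
      (R x a ∨ ∃ j, j < i ∧ ∃ b, l[j]? = some b ∧ R b a)) ∧ z ∈ l := by
  constructor
  · intro h
    induction h with
    | @single y hy =>
      refine ⟨[y], ?_, by simp⟩
      intro i hi
      have : i = 0 := by simpa using hi
      subst this
      exact ⟨y, by simp, Or.inl hy⟩
    | @tail b c _ hbc ih =>
      obtain ⟨l, hl, hb⟩ := ih
      refine ⟨l ++ [c], ?_, by simp⟩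
      intro i hi
      rcases Nat.lt_or_ge i l.length with hil | hil
      · obtain ⟨a, ha, hR⟩ := hl i hil
        refine ⟨a, by rw [List.getElem?_append_left hil]; exact ha, ?_⟩
        rcases hR with hR | ⟨j, hj, b', hb', hR⟩
        · exact Or.inl hR
        · exact Or.inr ⟨j, hj, b', by rw [List.getElem?_append_left (by omega)]; exact hb', hR⟩
      · have hil' : i = l.length := by
          simp only [List.length_append, List.length_singleton] at hi
          omega
        subst hil'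
        refine ⟨c, by simp, Or.inr ?_⟩
        obtain ⟨j, hj⟩ := List.mem_iff_getElem?.1 hb
        have hjl : j < l.length := (List.getElem?_eq_some_iff.1 hj).1
        exact ⟨j, hjl, b, by rw [List.getElem?_append_left hjl]; exact hj, hbc⟩
  · rintro ⟨l, hl, hz⟩
    have key : ∀ i, i < l.length → ∀ a, l[i]? = some a → Relation.TransGen R x a := by
      intro i
      induction i using Nat.strong_induction_on with
      | _ i ih =>
        intro hi a ha
        obtain ⟨a', ha', hR⟩ := hl i hi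
        rw [ha] at ha'
        cases ha'
        rcases hR with hR | ⟨j, hj, b, hb, hR⟩
        · exact Relation.TransGen.single hR
        · exact Relation.TransGen.tail (ih j hj (by omega) b hb) hR
    obtain ⟨j, hj⟩ := List.mem_iff_getElem?.1 hz
    exact key j (List.getElem?_eq_some_iff.1 hj).1 z hj

theorem TG_neg {R : ℕ → ℕ → Prop} (hirr : ∀ x, ¬ R x x)
    (hstar : ∀ v x z, x < v → z < v → R x v → R v z → R x z) (x z : ℕ) :
    (¬ Relation.TransGen R x z) ↔
    ∃ W : List ℕ, (∀ i < max x z + 1, R x i → i ∈ W) ∧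
      (∀ i < max x z + 1, ∀ j < max x z + 1, i ∈ W → R i j → j ∈ W) ∧ z ∉ W := by
  classical
  constructor
  · intro h
    refine ⟨(List.range (max x z + 1)).filter (fun y => decide (Relation.TransGen R x y)),
      ?_, ?_, ?_⟩
    · intro i hi hR
      rw [List.mem_filter, List.mem_range, decide_eq_true_iff]
      exact ⟨hi, Relation.TransGen.single hR⟩
    · intro i _ j hj hiW hR
      rw [List.mem_filter, List.mem_range, decide_eq_true_iff] at hiW ⊢
      exact ⟨hj, hiW.2.tail hR⟩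
    · intro hz
      rw [List.mem_filter, decide_eq_true_iff] at hz
      exact h hz.2
  · rintro ⟨W, h1, h2, h3⟩ h
    have hm := TGRn_max hirr hstar h
    have key : ∀ y, Relation.TransGen (TGRn R (max x z)) x y → y ≤ max x z ∧ y ∈ W := by
      intro y hy
      induction hy with
      | @single b hb => exact ⟨hb.2.2, h1 b (Nat.lt_succ_of_le hb.2.2) hb.1⟩
      | @tail b c _ hbc ih =>
        exact ⟨hbc.2.2, h2 b (Nat.lt_succ_of_le hbc.2.1) c (Nat.lt_succ_of_le hbc.2.2) ih.2 hbc.1⟩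
    exact h3 (key z hm).2

theorem transGen_computable {R : ℕ → ℕ → Prop} (hR : CR R) (hirr : ∀ x, ¬ R x x)
    (hstar : ∀ v x z, x < v → z < v → R x v → R v z → R x z) : CR (Relation.TransGen R) := by
  unfold CR at hR ⊢
  apply cp_of_re
  · have h : REPred fun p : ℕ × ℕ => ∃ l : List ℕ, (∀ i < l.length, ∃ a, l[i]? = some a ∧
        (R p.1 a ∨ ∃ j, j < i ∧ ∃ b, l[j]? = some b ∧ R b a)) ∧ p.2 ∈ l := by
      refine ex (p := fun (p : ℕ × ℕ) (l : List ℕ) => (∀ i < l.length, ∃ a, l[i]? = some a ∧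
        (R p.1 a ∨ ∃ j, j < i ∧ ∃ b, l[j]? = some b ∧ R b a)) ∧ p.2 ∈ l) ?_
      refine and ?_ (mem_list (by fun_prop) (by fun_prop))
      refine all_lt (p := fun (x : (ℕ × ℕ) × List ℕ) (i : ℕ) => ∃ a, x.2[i]? = some a ∧
        (R x.1.1 a ∨ ∃ j, j < i ∧ ∃ b, x.2[j]? = some b ∧ R b a)) ?_ (by fun_prop)
      refine ex (p := fun (y : ((ℕ × ℕ) × List ℕ) × ℕ) (a : ℕ) => y.1.2[y.2]? = some a ∧
        (R y.1.1.1 a ∨ ∃ j, j < y.2 ∧ ∃ b, y.1.2[j]? = some b ∧ R b a)) ?_
      refine and (eq (by fun_prop) (by fun_prop)) (or ?_ ?_)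
      · exact (cp_comp hR (f := fun w : (((ℕ × ℕ) × List ℕ) × ℕ) × ℕ => (w.1.1.1.1, w.2))
          (by fun_prop)).to_re
      · refine ex (p := fun (w : (((ℕ × ℕ) × List ℕ) × ℕ) × ℕ) (j : ℕ) => j < w.1.2 ∧
          ∃ b, w.1.1.2[j]? = some b ∧ R b w.2) ?_
        refine and (lt (by fun_prop) (by fun_prop)) ?_
        refine ex (p := fun (w : ((((ℕ × ℕ) × List ℕ) × ℕ) × ℕ) × ℕ) (b : ℕ) =>
          w.1.1.1.2[w.2]? = some b ∧ R b w.1.2) ?_
        refine and (eq (by fun_prop) (by fun_prop)) ?_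
        exact (cp_comp hR (f := fun w : (((((ℕ × ℕ) × List ℕ) × ℕ) × ℕ) × ℕ) × ℕ =>
          (w.2, w.1.1.2)) (by fun_prop)).to_re
    exact h.of_eq fun p => (TG_cert p.1 p.2).symm
  · have h : REPred fun p : ℕ × ℕ => ∃ W : List ℕ, (∀ i < max p.1 p.2 + 1, R p.1 i → i ∈ W) ∧
        (∀ i < max p.1 p.2 + 1, ∀ j < max p.1 p.2 + 1, i ∈ W → R i j → j ∈ W) ∧ p.2 ∉ W := by
      refine ex (p := fun (p : ℕ × ℕ) (W : List ℕ) =>
        (∀ i < max p.1 p.2 + 1, R p.1 i → i ∈ W) ∧
        (∀ i < max p.1 p.2 + 1, ∀ j < max p.1 p.2 + 1, i ∈ W → R i j → j ∈ W) ∧ p.2 ∉ W) ?_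
      refine and ?_ (and ?_ (not_mem_list (by fun_prop) (by fun_prop)))
      · refine (cp_all_lt (p := fun (x : (ℕ × ℕ) × List ℕ) (i : ℕ) => R x.1.1 i → i ∈ x.2)
          ?_ (f := fun x => max x.1.1 x.1.2 + 1) (by fun_prop)).to_re
        refine cp_imp ?_ (cp_mem (by fun_prop) (by fun_prop))
        exact cp_comp hR (f := fun w : ((ℕ × ℕ) × List ℕ) × ℕ => (w.1.1.1, w.2)) (by fun_prop)
      · refine (cp_all_lt (p := fun (x : (ℕ × ℕ) × List ℕ) (i : ℕ) =>
          ∀ j < max x.1.1 x.1.2 + 1, i ∈ x.2 → R i j → j ∈ x.2)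
          ?_ (f := fun x => max x.1.1 x.1.2 + 1) (by fun_prop)).to_re
        refine cp_all_lt (p := fun (y : ((ℕ × ℕ) × List ℕ) × ℕ) (j : ℕ) =>
          y.2 ∈ y.1.2 → R y.2 j → j ∈ y.1.2) ?_
          (f := fun y => max y.1.1.1 y.1.1.2 + 1) (by fun_prop)
        refine cp_imp (cp_mem (by fun_prop) (by fun_prop))
          (cp_imp ?_ (cp_mem (by fun_prop) (by fun_prop)))
        exact cp_comp hR (f := fun w : (((ℕ × ℕ) × List ℕ) × ℕ) × ℕ => (w.1.2, w.2)) (by fun_prop)
    exact h.of_eq fun p => (TG_neg hirr hstar p.1 p.2).symm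

end Pool.Agent.Helper806.RD
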