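import Pool.Agent.Helper806.RD.Defs

set_option autoImplicit false


namespace Pool.Agent.Helper806.RD


/-- the order of type `κ` on the elements of index at most `n` -/
def Cst (lt : ℕ → ℕ → Prop) (X : ℕ → Prop) (κ : ℕ → ℕ) (n u v : ℕ) : Prop :=
  X u ∧ X v ∧ u ≠ v ∧ ¬ lt v u ∧ ∀ y ≤ n, ∀ x ≤ n, X y → X x → (y = u ∨ lt y u) →
    (x = v ∨ lt v x) → κ x < κ y → lt y x

theorem cst_trans {lt : ℕ → ℕ → Prop} {X : ℕ → Prop} {κ : ℕ → ℕ}
    (trans : ∀ x y z, lt x y → lt y z → lt x z) (irrefl : ∀ x, ¬ lt x x)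
    (hκ : ∀ x y, X x → X y → κ x = κ y → x ≠ y → lt x y ∨ lt y x)
    (n u v w : ℕ) (hu : u ≤ n) (hv : v ≤ n) (hw : w ≤ n) (h1 : Cst lt X κ n u v)
    (h2 : Cst lt X κ n v w) : Cst lt X κ n u w := by
  obtain ⟨Xu, Xv, huv, nvu, H1⟩ := h1
  obtain ⟨_, Xw, hvw, nwv, H2⟩ := h2
  have hB : ¬ (w = u ∨ lt w u) := by
    intro hwu
    have key : lt v w → False := by
      intro h
      rcases hwu with h' | h'
      · subst h'; exact nvu h
      · exact nvu (trans _ _ _ h h')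
    rcases lt_trichotomy (κ v) (κ w) with h | h | h
    · exact nwv (H1 w hw v hv Xw Xv hwu (Or.inl rfl) h)
    · rcases hκ v w Xv Xw h hvw with h' | h'
      · exact key h'
      · exact nwv h'
    · exact key (H2 v hv w hw Xv Xw (Or.inl rfl) (Or.inl rfl) h)
  refine ⟨Xu, Xw, fun h => hB (Or.inl h.symm), fun h => hB (Or.inr h), ?_⟩
  intro y hy x hx Xy Xx hyu hxw hxy
  rcases lt_or_ge (κ v) (κ y) with h | h
  · have h3 : lt y v := H1 y hy v hv Xy Xv hyu (Or.inl rfl) h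
    exact H2 y hy x hx Xy Xx (Or.inr h3) hxw hxy
  · have h3 : lt v x := H2 v hv x hx Xv Xx (Or.inl rfl) hxw (lt_of_lt_of_le hxy h)
    exact H1 y hy x hx Xy Xx hyu (Or.inr h3) hxy

theorem cst_of_lt {lt : ℕ → ℕ → Prop} {X : ℕ → Prop} {κ : ℕ → ℕ}
    (trans : ∀ x y z, lt x y → lt y z → lt x z) (irrefl : ∀ x, ¬ lt x x)
    (n u v : ℕ) (hu : X u) (hv : X v) (h : lt u v) : Cst lt X κ n u v := by
  refine ⟨hu, hv, fun e => ?_, fun h' => irrefl _ (trans _ _ _ h h'), ?_⟩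
  · subst e; exact irrefl _ h
  · intro y _ x _ _ _ hyu hxv _
    have h1 : lt y v := by
      rcases hyu with e | e
      · subst e; exact h
      · exact trans _ _ _ e h
    rcases hxv with e | e
    · subst e; exact h1
    · exact trans _ _ _ h1 e

end Pool.Agent.Helper806.RD
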