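import Pool.Agent.Helper806.RD.ConfIS
import Pool.Agent.Helper806.RD.Facts

set_option autoImplicit false


namespace Pool.Agent.Helper806.RD



theorem j2909_max {tl : ℕ → ℕ → Prop} {T : ℕ → Prop}
    (htr : ∀ r s t, tl r s → tl s t → tl r t)
    (htot : ∀ s t, T s → T t → s ≠ t → tl s t ∨ tl t s) (f : ℕ → ℕ) (F : Finset ℕ)
    (hne : F.Nonempty) (hT : ∀ z ∈ F, T (f z)) :
    ∃ z₀ ∈ F, ∀ z ∈ F, f z = f z₀ ∨ tl (f z) (f z₀) := by
  induction hne using Finset.Nonempty.cons_induction with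
  | singleton a => exact ⟨a, by simp, by simp⟩
  | cons a F ha hne ih =>
    obtain ⟨z₀, hz₀, h⟩ := ih (fun z hz => hT z (Finset.mem_cons.2 (Or.inr hz)))
    by_cases he : f a = f z₀
    · refine ⟨z₀, Finset.mem_cons.2 (Or.inr hz₀), ?_⟩
      intro z hz
      rcases Finset.mem_cons.1 hz with rfl | hz
      · exact Or.inl he
      · exact h z hz
    · rcases htot _ _ (hT a (Finset.mem_cons_self a F)) (hT z₀ (Finset.mem_cons.2 (Or.inr hz₀))) he
        with h1 | h1
      · refine ⟨z₀, Finset.mem_cons.2 (Or.inr hz₀), ?_⟩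
        intro z hz
        rcases Finset.mem_cons.1 hz with rfl | hz
        · exact Or.inr h1
        · exact h z hz
      · refine ⟨a, Finset.mem_cons_self a F, ?_⟩
        intro z hz
        rcases Finset.mem_cons.1 hz with rfl | hz
        · exact Or.inl rfl
        · rcases h z hz with h2 | h2
          · rw [h2]; exact Or.inr h1
          · exact Or.inr (htr _ _ _ h2 h1)

theorem j2909_dual {tl : ℕ → ℕ → Prop} {T G : ℕ → Prop} {be ta hi : ℕ → ℕ → Prop}
    (h : IS tl T G be ta hi) : IS (fun a b => tl b a) T G hi ta be where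
  tl_trans := fun r s t h1 h2 => h.tl_trans t s r h2 h1
  tl_irrefl := h.tl_irrefl
  tl_total := fun s t hs ht hne => (h.tl_total s t hs ht hne).symm
  tri := fun t x ht hx => by
    rcases h.tri t x ht hx with h1 | h1 | h1
    · exact Or.inr (Or.inr h1)
    · exact Or.inr (Or.inl h1)
    · exact Or.inl h1
  be_ta := fun t x ht hx h1 h2 => h.ta_hi t x ht hx h2 h1
  be_hi := fun t x ht hx h1 h2 => h.be_hi t x ht hx h2 h1
  ta_hi := fun t x ht hx h1 h2 => h.be_ta t x ht hx h2 h1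
  be_mono := fun s t x hs ht hx h1 h2 => h.hi_mono t s x ht hs hx h1 h2
  hi_mono := fun s t x hs ht hx h1 h2 => h.be_mono t s x ht hs hx h1 h2
  wit := h.wit

theorem j2909_step {tl : ℕ → ℕ → Prop} {T G : ℕ → Prop} {be ta hi : ℕ → ℕ → Prop}
    (h : IS tl T G be ta hi) (F : Finset ℕ) (hne : F.Nonempty) (hG : ∀ x ∈ F, G x) (x : ℕ) (hx : G x)
    (hc : ∀ z ∈ F, ∃ t, T t ∧ ta t x ∧ ta t z) (t : ℕ) (ht : T t) (htF : ∀ z ∈ F, ta t z)
    (hhi : hi t x) : ∃ s, T s ∧ ta s x ∧ ∀ z ∈ F, ta s z := by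
  classical
  choose! f hf1 hf2 hf3 using hc
  obtain ⟨z₀, hz₀, hmax⟩ := j2909_max h.tl_trans h.tl_total f F hne hf1
  have hlt : ∀ z ∈ F, tl (f z) t := by
    intro z hz
    have hne' : f z ≠ t := by
      intro he
      exact h.ta_hi t x ht hx (he ▸ hf2 z hz) hhi
    rcases h.tl_total _ _ (hf1 z hz) ht hne' with h1 | h1
    · exact h1
    · exact absurd (h.hi_mono _ _ x ht (hf1 z hz) hx h1 hhi) (h.ta_hi _ x (hf1 z hz) hx (hf2 z hz))
  refine ⟨f z₀, hf1 z₀ hz₀, hf2 z₀ hz₀, ?_⟩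
  intro z hz
  rcases hmax z hz with h1 | h1
  · rw [← h1]; exact hf3 z hz
  · rcases h.tri (f z₀) z (hf1 z₀ hz₀) (hG z hz) with h2 | h2 | h2
    · exact absurd (hf3 z hz) (h.be_ta _ z (hf1 z hz) (hG z hz)
        (h.be_mono _ _ z (hf1 z hz) (hf1 z₀ hz₀) (hG z hz) h1 h2))
    · exact h2
    · exact absurd (h.hi_mono _ _ z (hf1 z₀ hz₀) ht (hG z hz) (hlt z₀ hz₀) h2)
        (h.ta_hi t z ht (hG z hz) (htF z hz))

theorem j2909_helly {tl : ℕ → ℕ → Prop} {T G : ℕ → Prop} {be ta hi : ℕ → ℕ → Prop}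
    (h : IS tl T G be ta hi) (F : Finset ℕ) (hne : F.Nonempty) (hG : ∀ x ∈ F, G x)
    (hc : ∀ x ∈ F, ∀ z ∈ F, ∃ t, T t ∧ ta t x ∧ ta t z) : ∃ t, T t ∧ ∀ z ∈ F, ta t z := by
  induction hne using Finset.Nonempty.cons_induction with
  | singleton a =>
    obtain ⟨t, ht, h1, _⟩ := hc a (by simp) a (by simp)
    exact ⟨t, ht, by simpa using h1⟩
  | cons a F ha hne ih =>
    have hG' : ∀ x ∈ F, G x := fun x hx => hG x (Finset.mem_cons.2 (Or.inr hx))
    have hGa : G a := hG a (Finset.mem_cons_self a F)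
    obtain ⟨t, ht, htF⟩ := ih hG'
      (fun x hx z hz => hc x (Finset.mem_cons.2 (Or.inr hx)) z (Finset.mem_cons.2 (Or.inr hz)))
    have hc' : ∀ z ∈ F, ∃ t, T t ∧ ta t a ∧ ta t z := fun z hz =>
      hc a (Finset.mem_cons_self a F) z (Finset.mem_cons.2 (Or.inr hz))
    have hfin : ∃ s, T s ∧ ta s a ∧ ∀ z ∈ F, ta s z := by
      rcases h.tri t a ht hGa with h1 | h1 | h1
      · exact j2909_step (j2909_dual h) F hne hG' a hGa hc' t ht htF h1
      · exact ⟨t, ht, h1, htF⟩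
      · exact j2909_step h F hne hG' a hGa hc' t ht htF h1
    obtain ⟨s, hs, hsa, hsF⟩ := hfin
    refine ⟨s, hs, ?_⟩
    intro z hz
    rcases Finset.mem_cons.1 hz with rfl | hz
    · exact hsa
    · exact hsF z hz

theorem q_width {q : ℕ} {lt : ℕ → ℕ → Prop} {X S : ℕ → Prop} {A : ℕ → Finset ℕ}
    {T U : ℕ → Prop} (h : Conf q lt X S A T U) :
    WidthLe (Relation.TransGen (Q lt A T U)) U q := by
  intro F hFU hFa
  by_contra hcard
  push Not at hcard
  have hI := conf_is h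
  have hne : F.Nonempty := Finset.card_pos.1 (by omega)
  have hQ : ∀ x ∈ F, ∀ z ∈ F, ¬ Q lt A T U x z := by
    intro x hx z hz hq
    exact hFa x hx z hz (Relation.TransGen.single hq)
  have h1 : ∀ x ∈ F, ∀ z ∈ F, ∃ t, T t ∧ lo lt A t x ∧ lo lt A t z := by
    intro x hx z hz
    by_cases hxz : x = z
    · subst hxz
      obtain ⟨t, _, ht, hlo⟩ := h.wit x (hFU x hx)
      exact ⟨t, ht, hlo, hlo⟩
    · rcases hI.d0_total (hFU x hx) (hFU z hz) with h2 | h2 | h2
      · exact absurd ⟨hFU x hx, hFU z hz, hxz, Or.inr h2⟩ (hQ x hx z hz)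
      · exact absurd ⟨hFU z hz, hFU x hx, Ne.symm hxz, Or.inr h2⟩ (hQ z hz x hx)
      · obtain ⟨t, ht, _, h3, h4⟩ := h2
        exact ⟨t, ht, h3, h4⟩
  obtain ⟨t, ht, htF⟩ := j2909_helly hI F hne hFU h1
  have htn : t ∉ F := by
    intro htF'
    exact (h.UX t (hFU t htF')).2.2 ht
  have h2 := h.wX (insert t F) (by
    intro x hx
    rcases Finset.mem_insert.1 hx with rfl | hx
    · exact (h.TX x ht).1
    · exact (h.UX x (hFU x hx)).1) (by
    intro x hx y hy
    rcases Finset.mem_insert.1 hx with hx1 | hx1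
    · rcases Finset.mem_insert.1 hy with hy1 | hy1
      · rw [hx1, hy1]; exact h.irrefl _
      · rw [hx1]; exact (htF y hy1).1
    · rcases Finset.mem_insert.1 hy with hy1 | hy1
      · rw [hy1]; exact (htF x hx1).2.1
      · intro hlt
        by_cases hxy : x = y
        · subst hxy; exact h.irrefl _ hlt
        · exact hQ x hx1 y hy1 ⟨hFU x hx1, hFU y hy1, hxy, Or.inl hlt⟩)
  rw [Finset.card_insert_of_notMem htn] at h2
  omega

end Pool.Agent.Helper806.RD
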