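import Pool.Agent.Helper806.RD.HC
import Pool.Agent.Helper806.RD.ConfIS
import Pool.Agent.Helper806.RD.Facts
import Pool.Agent.Helper806.RD.Star
import Pool.Agent.Helper806.RD.Clos2
import Pool.Agent.Helper806.RD.Width
import Pool.Agent.Helper806.RD.TG
import Pool.Agent.Helper806.RD.BadPair
import Pool.Agent.Helper806.RD.Found
import Pool.Agent.Helper806.RD.Greedy
import Pool.Agent.Helper806.RD.GreedyS
import Pool.Agent.Helper806.RD.Ins
import Pool.Agent.Helper806.RD.Types1
import Pool.Agent.Helper806.RD.Types2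

set_option autoImplicit false

namespace Pool.Agent.Helper806.RD

open Pool.Agent.Helper806.RE

theorem d0_cr {T : ℕ → Prop} {be ta : ℕ → ℕ → Prop} (hT : ComputablePred T) (hbe : CR be)
    (hta : CR ta) : CR (D0 T be ta) := by
  have h : ComputablePred fun p : ℕ × ℕ => ∀ t < max p.1 p.2, T t → ta t p.1 → be t p.2 := by
    refine cp_all_lt (p := fun (p : ℕ × ℕ) t => T t → ta t p.1 → be t p.2) ?_ (by fun_prop)
    refine cp_imp (cp_comp hT (f := fun x : (ℕ × ℕ) × ℕ => x.2) (by fun_prop)) ?_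
    refine cp_imp ?_ ?_
    · exact cp_comp hta (f := fun x : (ℕ × ℕ) × ℕ => (x.2, x.1.1)) (by fun_prop)
    · exact cp_comp hbe (f := fun x : (ℕ × ℕ) × ℕ => (x.2, x.1.2)) (by fun_prop)
  refine h.of_eq fun p => ?_
  unfold D0
  constructor
  · intro h t h1 h2 h3; exact h t h2 h1 h3
  · intro h t h2 h1 h3; exact h t h1 h2 h3

theorem q_cr {lt : ℕ → ℕ → Prop} {A : ℕ → Finset ℕ} {T U : ℕ → Prop} (hlt : CR lt)
    (hT : ComputablePred T) (hU : ComputablePred U) (hlo : CR (lo lt A)) :
    CR (Q lt A T U) := by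
  refine cp_and (cp_comp hU (f := fun x : ℕ × ℕ => x.1) (by fun_prop)) ?_
  refine cp_and (cp_comp hU (f := fun x : ℕ × ℕ => x.2) (by fun_prop)) ?_
  refine cp_and (cp_not (cp_eq (f := fun x : ℕ × ℕ => x.1) (g := fun x => x.2) (by fun_prop)
    (by fun_prop))) ?_
  exact cp_or hlt (d0_cr hT hlt hlo)

/-- covering `U` -/
theorem conf_cover {q k : ℕ} (hk : Cover q k) {lt : ℕ → ℕ → Prop} {X S : ℕ → Prop}
    {A : ℕ → Finset ℕ} {T U : ℕ → Prop} (h : Conf q lt X S A T U)
    (hlt : CR lt) (hT : ComputablePred T) (hU : ComputablePred U) (hlo : CR (lo lt A)) :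
    HasCover lt U (k * (22 * k)) := by
  classical
  have hQ : CR (Q lt A T U) := q_cr hlt hT hU hlo
  have hTQ : CR (Relation.TransGen (Q lt A T U)) := by
    refine transGen_computable hQ (fun x hx => hx.2.2.1 rfl) ?_
    intro v x z hx hz h1 h2
    exact q_star h hx hz h1 h2
  obtain ⟨c₁, hc₁, c₁k, c₁c⟩ := hk (Relation.TransGen (Q lt A T U)) U hTQ hU
    (fun x y z h1 h2 => h1.trans h2) (q_irrefl h) (q_width h)
  refine HasCover.glue hc₁ c₁k fun i hi => ?_
  have hGc : ComputablePred fun x => U x ∧ c₁ x = i := cp_and hU (cp_eq hc₁ (cconst i))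
  obtain ⟨c₂, hc₂, c₂k, c₂b⟩ := found_colour (o := Relation.TransGen (Q lt A T U))
    (IS.mono_G (conf_is h) (G' := fun x => U x ∧ c₁ x = i) fun x hx => hx.1) hT hGc hlt hlo hTQ
    (fun x z hx hz hne => c₁c x z hx.1 hz.1 (hx.2.trans hz.2.symm) hne)
    (fun x z hx hz hxz => q_mon h hxz)
  refine HasCover.glue hc₂ (fun x hx => c₂k x hx) fun j hj => ?_
  refine hk lt _ hlt (cp_and hGc (cp_eq hc₂ (cconst j))) h.trans h.irrefl ?_
  intro F hF hanti
  by_contra hcard
  obtain ⟨Z, hZF, hZc⟩ := Finset.exists_subset_card_eq (show q + 1 ≤ F.card by omega)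
  obtain ⟨z, hz, z', hz', hbad⟩ := exists_bad h (Z := Z) (fun z hz => (hF z (hZF hz)).1.1)
    (fun a ha b hb => hanti a (hZF ha) b (hZF hb)) hZc (N := Z.sup id)
    (fun z hz => Finset.le_sup (f := id) hz)
  have h1 := hF z (hZF hz)
  have h2 := hF z' (hZF hz')
  exact c₂b _ z z' h1.1 h2.1 (Finset.le_sup (f := id) hz) (Finset.le_sup (f := id) hz') hbad
    (h1.2.trans h2.2.symm)

theorem cover_zero : Cover 0 0 := by
  intro lt X _ _ _ hirr hw
  have hX : ∀ x, ¬ X x := by
    intro x hx
    have := hw {x} (by simpa using hx) (by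
      intro a ha b hb
      rw [Finset.mem_singleton] at ha hb
      subst ha; subst hb
      exact hirr _)
    simp at this
  exact ⟨fun _ => 0, Computable.const 0, fun x hx => absurd hx (hX x),
    fun x _ hx => absurd hx (hX x)⟩

theorem Base.flip {q : ℕ} {lt : ℕ → ℕ → Prop} {X S : ℕ → Prop} {A : ℕ → Finset ℕ}
    (h : Base q lt X S A) : Base q (fun x y => lt y x) X S A where
  trans := fun x y z h1 h2 => h.trans z y x h2 h1
  irrefl := h.irrefl
  wX := fun F hF ha => h.wX F hF fun x hx y hy => ha y hy x hx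
  wS := fun F hF ha => h.wS F hF fun x hx y hy => ha y hy x hx
  SX := h.SX
  A_S := h.A_S
  A_card := h.A_card
  A_anti := fun x hx hS a ha b hb => h.A_anti x hx hS b hb a ha
  A_inc := fun x hx hS a ha => ⟨(h.A_inc x hx hS a ha).2, (h.A_inc x hx hS a ha).1⟩

theorem cover_succ {q k : ℕ} (hk : Cover q k) :
    Cover (q + 1) (k + (1 + (k * (22 * k) + k * (22 * k)))) := by
  classical
  intro lt X hlt hX trans irrefl hw
  obtain ⟨S, A, hb, hS, hup, hdn⟩ := greedy_S q hlt hX trans irrefl hw
  have hlt' : CR fun x y => lt y x :=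
    cp_comp hlt (f := fun p : ℕ × ℕ => (p.2, p.1)) (by fun_prop)
  have hB : ComputablePred fun x => X x ∧ ¬ S x := cp_and hX (cp_not hS)
  obtain ⟨T, hT, hTs⟩ := greedy (G := fun x => X x ∧ ¬ S x) (C := fun x y => lt x y ∨ lt y x) hB
    (cp_or hlt hlt')
  have hlo : CR (lo lt A) := cp_and (cp_not hlt) (cp_and (cp_not hlt') hup)
  have hlo' : CR (lo (fun x y => lt y x) A) := cp_and (cp_not hlt') (cp_and (cp_not hlt) hdn)
  have hchain : ∀ s t, T s → T t → s ≠ t → lt s t ∨ lt t s := by
    intro s t hs ht hne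
    rcases lt_or_gt_of_ne hne with h1 | h1
    · exact (((hTs t).1 ht).2 s h1 hs).symm
    · exact ((hTs s).1 hs).2 t h1 ht
  let W : ℕ → Prop := fun x => (X x ∧ ¬ S x) ∧ ¬ T x
  have hW : ComputablePred W := cp_and hB (cp_not hT)
  let U : ℕ → Prop := fun x => W x ∧ ∃ t, t < x ∧ (T t ∧ lo lt A t x)
  let D : ℕ → Prop := fun x => W x ∧ ¬ U x
  have hU : ComputablePred U := by
    refine cp_and hW ?_
    refine cp_ex_lt (p := fun x t => T t ∧ lo lt A t x) ?_ cid
    refine cp_and (cp_comp hT (f := fun x : ℕ × ℕ => x.2) (by fun_prop)) ?_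
    exact cp_comp hlo (f := fun p : ℕ × ℕ => (p.2, p.1)) (by fun_prop)
  have hD : ComputablePred D := cp_and hW (cp_not hU)
  have cU : Conf q lt X S A T U :=
    { hb with
      TX := fun t ht => ((hTs t).1 ht).1
      T_chain := hchain
      UX := fun x hx => ⟨hx.1.1.1, hx.1.1.2, hx.1.2⟩
      wit := fun x hx => hx.2 }
  have hbf := hb.flip
  have cD : Conf q (fun x y => lt y x) X S A T D :=
    { hbf with
      TX := fun t ht => ((hTs t).1 ht).1
      T_chain := fun s t hs ht hne => (hchain s t hs ht hne).symm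
      UX := fun x hx => ⟨hx.1.1.1, hx.1.1.2, hx.1.2⟩
      wit := by
        intro x hx
        have h1 : ¬ ∀ y < x, T y → lt x y ∨ lt y x := fun hh => hx.1.2 ((hTs x).2 ⟨hx.1.1, hh⟩)
        push Not at h1
        obtain ⟨t, htx, hTt, h2, h3⟩ := h1
        refine ⟨t, htx, hTt, h2, h3, ?_⟩
        have hno : ¬ lo lt A t x := fun hh => hx.2 ⟨hx.1, t, htx, hTt, hh⟩
        -- `t` is comparable to some element of `A x`
        by_contra hcon
        have hcon' : ∀ a ∈ A x, ¬ lt a t := fun a ha hh => hcon ⟨a, ha, hh⟩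
        have hno' : ∀ a ∈ A x, ¬ lt t a := fun a ha hh => hno ⟨h3, h2, a, ha, hh⟩
        have hTX := ((hTs t).1 hTt).1
        have hxA : x ∉ A x := fun hh => hx.1.1.2 (hb.A_S x hx.1.1.1 hx.1.1.2 x hh)
        have htA : t ∉ insert x (A x) := by
          rw [Finset.mem_insert]
          rintro (rfl | hh)
          · exact absurd htx (lt_irrefl _)
          · exact hTX.2 (hb.A_S x hx.1.1.1 hx.1.1.2 t hh)
        have := hb.wX (insert t (insert x (A x))) (by
            intro y hy
            rcases Finset.mem_insert.1 hy with rfl | hy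
            · exact hTX.1
            rcases Finset.mem_insert.1 hy with rfl | hy
            · exact hx.1.1.1
            · exact hb.SX y (hb.A_S x hx.1.1.1 hx.1.1.2 y hy)) (by
            intro y hy z hz
            have hAi := hb.A_inc x hx.1.1.1 hx.1.1.2
            have hAa := hb.A_anti x hx.1.1.1 hx.1.1.2
            have hy' : y = t ∨ y = x ∨ y ∈ A x := by simpa using hy
            have hz' : z = t ∨ z = x ∨ z ∈ A x := by simpa using hz
            rcases hy' with e1 | e1 | e1 <;> rcases hz' with e2 | e2 | e2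
            · rw [e1, e2]; exact irrefl _
            · rw [e1, e2]; exact h3
            · rw [e1]; exact hno' z e2
            · rw [e1, e2]; exact h2
            · rw [e1, e2]; exact irrefl _
            · rw [e1]; exact (hAi z e2).2
            · rw [e2]; exact hcon' y e1
            · rw [e2]; exact (hAi y e1).1
            · exact hAa y e1 z e2)
        rw [Finset.card_insert_of_notMem htA, Finset.card_insert_of_notMem hxA,
          hb.A_card x hx.1.1.1 hx.1.1.2] at this
        omega }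
  have hcU := conf_cover hk cU hlt hT hU hlo
  have hcD := (conf_cover hk cD hlt' hT hD hlo').flip
  have hcS := hk lt S hlt hS trans irrefl hb.wS
  have hcT : HasCover lt T 1 :=
    ⟨fun _ => 0, Computable.const 0, fun _ _ => Nat.zero_lt_one,
      fun x y hx hy _ hne => hchain x y hx hy hne⟩
  have h1 : HasCover lt (fun x => U x ∨ D x) (k * (22 * k) + k * (22 * k)) :=
    HasCover.union hU hcU (hcD.mono (fun x hx => hx.1) le_rfl)
  have h2 : HasCover lt (fun x => T x ∨ (U x ∨ D x)) (1 + (k * (22 * k) + k * (22 * k))) :=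
    HasCover.union hT hcT (h1.mono (fun x hx => hx.1) le_rfl)
  have h3 : HasCover lt (fun x => S x ∨ (T x ∨ (U x ∨ D x)))
      (k + (1 + (k * (22 * k) + k * (22 * k)))) :=
    HasCover.union hS hcS (h2.mono (fun x hx => hx.1) le_rfl)
  refine h3.mono (fun x hx => ?_) le_rfl
  by_cases hSx : S x
  · exact Or.inl hSx
  by_cases hTx : T x
  · exact Or.inr (Or.inl hTx)
  by_cases hUx : U x
  · exact Or.inr (Or.inr (Or.inl hUx))
  · exact Or.inr (Or.inr (Or.inr ⟨⟨⟨hx, hSx⟩, hTx⟩, hUx⟩))

theorem exists_cover (w : ℕ) : ∃ k, Cover w k := by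
  induction w with
  | zero => exact ⟨0, cover_zero⟩
  | succ q ih => obtain ⟨k, hk⟩ := ih; exact ⟨_, cover_succ hk⟩

end Pool.Agent.Helper806.RD
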