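import Pool.Agent.Helper806.RD.Types1

set_option autoImplicit false


namespace Pool.Agent.Helper806.RD



theorem cst_exists {lt : ℕ → ℕ → Prop} {X : ℕ → Prop} {k : ℕ} {c : ℕ → ℕ}
    (trans : ∀ x y z, lt x y → lt y z → lt x z) (irrefl : ∀ x, ¬ lt x x)
    (hc : ∀ x, X x → c x < k)
    (hcc : ∀ x y, X x → X y → c x = c y → x ≠ y → lt x y ∨ lt y x)
    (crown : ∀ a₁ a₂ a₃ b₁ b₂ b₃ : ℕ, X a₁ → X a₂ → X a₃ → X b₁ → X b₂ → X b₃ →
      lt a₁ b₂ → lt a₁ b₃ → lt a₂ b₁ → lt a₂ b₃ → lt a₃ b₁ → lt a₃ b₂ →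
      a₁ ≠ b₁ → ¬ lt a₁ b₁ → ¬ lt b₁ a₁ → a₂ ≠ b₂ → ¬ lt a₂ b₂ → ¬ lt b₂ a₂ →
      a₃ ≠ b₃ → ¬ lt a₃ b₃ → ¬ lt b₃ a₃ →
      a₁ ≠ a₂ → ¬ lt a₁ a₂ → ¬ lt a₂ a₁ → a₁ ≠ a₃ → ¬ lt a₁ a₃ → ¬ lt a₃ a₁ →
      a₂ ≠ a₃ → ¬ lt a₂ a₃ → ¬ lt a₃ a₂ →
      b₁ ≠ b₂ → ¬ lt b₁ b₂ → ¬ lt b₂ b₁ → b₁ ≠ b₃ → ¬ lt b₁ b₃ → ¬ lt b₃ b₁ →
      b₂ ≠ b₃ → ¬ lt b₂ b₃ → ¬ lt b₃ b₂ → False)
    {a b : ℕ} (ha : X a) (hb : X b) (hab : a ≠ b) (h1 : ¬ lt a b) (h2 : ¬ lt b a) :
    ∃ π : Equiv.Perm (Fin k), ∀ κ : ℕ → ℕ, (∀ x (hx : X x), κ x = (π ⟨c x, hc x hx⟩ : ℕ)) →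
      Cst lt X κ (max a b) b a := by
  classical
  set n := max a b with hn
  let N : Fin k → Finset ℕ := fun l => (Finset.range (n+1)).filter
    (fun y => X y ∧ (y = b ∨ lt y b) ∧ ∀ x, x ≤ n → X x → (x = a ∨ lt a x) → c x = l → lt y x)
  have memN : ∀ l y, y ∈ N l ↔ y ≤ n ∧ X y ∧ (y = b ∨ lt y b) ∧
      ∀ x, x ≤ n → X x → (x = a ∨ lt a x) → c x = l → lt y x := by
    intro l y
    simp only [N, Finset.mem_filter, Finset.mem_range, Nat.lt_succ_iff]
  have nested : ∀ l l', N l ⊆ N l' ∨ N l' ⊆ N l := by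
    intro l l'
    by_contra hcon
    rw [not_or] at hcon
    obtain ⟨hA, hB⟩ := hcon
    rw [Finset.not_subset] at hA hB
    obtain ⟨y, hy, hy'⟩ := hA
    obtain ⟨z, hz, hz'⟩ := hB
    rw [memN] at hy hz
    obtain ⟨yn, yX, yb, yl⟩ := hy
    obtain ⟨zn, zX, zb, zl⟩ := hz
    have e1 : ∃ x', x' ≤ n ∧ X x' ∧ (x' = a ∨ lt a x') ∧ c x' = l' ∧ ¬ lt y x' := by
      by_contra hno
      apply hy'
      rw [memN]
      refine ⟨yn, yX, yb, ?_⟩
      intro x hx1 hx2 hx3 hx4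
      by_contra hx5
      exact hno ⟨x, hx1, hx2, hx3, hx4, hx5⟩
    have e2 : ∃ x, x ≤ n ∧ X x ∧ (x = a ∨ lt a x) ∧ c x = l ∧ ¬ lt z x := by
      by_contra hno
      apply hz'
      rw [memN]
      refine ⟨zn, zX, zb, ?_⟩
      intro x hx1 hx2 hx3 hx4
      by_contra hx5
      exact hno ⟨x, hx1, hx2, hx3, hx4, hx5⟩
    obtain ⟨x', x'n, x'X, x'a, x'l, hyx'⟩ := e1
    obtain ⟨x, xn, xX, xa, xl, hzx⟩ := e2
    have hyx : lt y x := yl x xn xX xa xl
    have hzx' : lt z x' := zl x' x'n x'X x'a x'l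
    have yb' : lt y b := by
      rcases yb with h | h
      · exfalso
        subst h
        rcases zb with h | h
        · subst h; exact hzx hyx
        · exact hzx (trans _ _ _ h hyx)
      · exact h
    have zb' : lt z b := by
      rcases zb with h | h
      · exfalso
        subst h
        exact hyx' (trans _ _ _ yb' hzx')
      · exact h
    have xa' : lt a x := by
      rcases xa with h | h
      · exfalso
        subst h
        rcases x'a with h | h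
        · subst h; exact hyx' hyx
        · exact hyx' (trans _ _ _ hyx h)
      · exact h
    have x'a' : lt a x' := by
      rcases x'a with h | h
      · exfalso
        subst h
        exact hzx (trans _ _ _ hzx' xa')
      · exact h
    refine crown a y z b x' x ha yX zX hb x'X xX x'a' xa' yb' hyx zb' hzx' hab h1 h2
      ?_ hyx' ?_ ?_ hzx ?_ ?_ ?_ ?_ ?_ ?_ ?_ ?_ ?_ ?_ ?_ ?_ ?_ ?_ ?_ ?_ ?_ ?_ ?_
    · rintro rfl; exact h1 (trans _ _ _ x'a' yb')
    · intro h; exact h1 (trans _ _ _ x'a' (trans _ _ _ h yb'))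
    · rintro rfl; exact h1 (trans _ _ _ xa' zb')
    · intro h; exact h1 (trans _ _ _ xa' (trans _ _ _ h zb'))
    · rintro rfl; exact h1 yb'
    · intro h; exact h1 (trans _ _ _ h yb')
    · intro h; exact hyx' (trans _ _ _ h x'a')
    · rintro rfl; exact h1 zb'
    · intro h; exact h1 (trans _ _ _ h zb')
    · intro h; exact hzx (trans _ _ _ h xa')
    · rintro rfl; exact hyx' hzx'
    · intro h; exact hyx' (trans _ _ _ h hzx')
    · intro h; exact hzx (trans _ _ _ h hyx)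
    · rintro rfl; exact h1 x'a'
    · intro h; exact hyx' (trans _ _ _ yb' h)
    · intro h; exact h1 (trans _ _ _ x'a' h)
    · rintro rfl; exact h1 xa'
    · intro h; exact hzx (trans _ _ _ zb' h)
    · intro h; exact h1 (trans _ _ _ xa' h)
    · rintro rfl; exact hyx' hyx
    · intro h; exact hzx (trans _ _ _ hzx' h)
    · intro h; exact hyx' (trans _ _ _ hyx h)
  let f : Fin k → ℕ := fun l => (n + 1) - (N l).card
  have hcard : ∀ l, (N l).card ≤ n + 1 := by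
    intro l
    refine (Finset.card_filter_le _ _).trans ?_
    simp
  refine ⟨(Tuple.sort f)⁻¹, ?_⟩
  intro κ hκ
  have hsort : ∀ l l', (Tuple.sort f)⁻¹ l < (Tuple.sort f)⁻¹ l' → N l' ⊆ N l := by
    intro l l' hll
    have hm := Tuple.monotone_sort f hll.le
    have hm' : f ((Tuple.sort f) ((Tuple.sort f)⁻¹ l)) ≤ f ((Tuple.sort f) ((Tuple.sort f)⁻¹ l')) := hm
    have e1 : (Tuple.sort f) ((Tuple.sort f)⁻¹ l) = l := (Tuple.sort f).apply_symm_apply l
    have e2 : (Tuple.sort f) ((Tuple.sort f)⁻¹ l') = l' := (Tuple.sort f).apply_symm_apply l'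
    rw [e1, e2] at hm'
    have hc' : (N l').card ≤ (N l).card := by
      have h1 := hcard l
      have h2 := hcard l'
      simp only [f] at hm'
      omega
    rcases nested l l' with h | h
    · rw [Finset.eq_of_subset_of_card_le h hc']
    · exact h
  refine ⟨hb, ha, fun h => hab h.symm, h1, ?_⟩
  intro y hyn x hxn yX xX yb xa hlt
  rw [hκ x xX, hκ y yX] at hlt
  have hsub := hsort _ _ (Fin.lt_def.2 hlt)
  have hmem : y ∈ N ⟨c y, hc y yX⟩ := by
    rw [memN]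
    refine ⟨hyn, yX, yb, ?_⟩
    intro w wn wX wa wc
    have hay : ¬ (y = a ∨ lt a y) := by
      rintro (h | h)
      · subst h
        rcases yb with h' | h'
        · exact hab h'
        · exact h1 h'
      · rcases yb with h' | h'
        · subst h'; exact h1 h
        · exact h1 (trans _ _ _ h h')
    have hwy : w ≠ y := by
      rintro rfl
      exact hay wa
    have wc' : c w = c y := wc
    rcases hcc w y wX yX wc' hwy with h | h
    · exfalso
      apply hay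
      right
      rcases wa with h' | h'
      · subst h'; exact h
      · exact trans _ _ _ h' h
    · exact h
  have hmem' := hsub hmem
  rw [memN] at hmem'
  exact hmem'.2.2.2 x hxn xX xa rfl


end Pool.Agent.Helper806.RD
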